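import Pool.Agent.L0h30.EN.Tri

/-! Assembling the local matchings. -/

namespace Pool.Agent.L0h30.EN

open Pool.Agent.Y468.SR
open Pool.Agent.Y874.TP hiding S_REID S_REN S_THREE S_OUT S_CUT S_JUNC CStep CReid CM InvM InvC Inv3
open Pool.Agent.Y874.TP2
open Pool.Agent.Y874.TP2.T3
open Pool.Agent.R800.TP

section
variable {D : Code} {cmp : ℕ → ℕ} {g : ℕ}
variable {Ts : List Tri} {m : ℕ → ℕ} (hn : (D.map Prod.snd).Nodup) (hI : InvB D Ts)
  (hW : WF (passes D))
  (hm : InvM (D ++ TC Ts) m) (hc : ∀ κ, ((passes D).map kap).count κ ≤ 2)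
  (hg : ∀ T ∈ Ts, cmp (colour T.b₁) = cmp (colour T.a₁) ∧ cmp (colour T.c₁) = cmp (colour T.a₁))

theorem NN_nodup (hW : WF (passes D)) : (NN D cmp g).Nodup := (WF.nodup hW).filter _

theorem NN_cross (hW : WF (passes D)) {p q : Pass} (hp : p ∈ NN D cmp g) (hq : q ∈ NN D cmp g)
    (h : p ≠ q) : p.crossing ≠ q.crossing := by
  obtain ⟨p1, p2, -⟩ := mem_NN.1 hp
  obtain ⟨q1, q2, -⟩ := mem_NN.1 hq
  exact fun e => h (cross_inj hW p1 q1 e (by rw [p2, q2]))

include hn hI hW hm hc hg

theorem lk_ee {C : List Pass × ℕ} (hC : C ∈ D) {x x' y y' : Pass} (hx : x ∈ C.1) (hx' : x' ∈ C.1)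
    (hy : y ∈ C.1) (hy' : y' ∈ C.1) (h1 : x' ≠ x) (h2 : kap x' = kap x) (h3 : y' ≠ y)
    (h4 : kap y' = kap y) (h5 : colour x.crossing ≠ colour y.crossing)
    (h6 : cmp (colour x.crossing) = g) (h7 : cmp (colour y.crossing) = g)
    (hkx : colour x.crossing % 2 = 0) (hky : colour y.crossing % 2 = 0)
    (hfew : Few D cmp g) (hns : ¬ns C.1 x x' y y') :
    ∃ n, Loc D (fun p => cmp (colour p.crossing) = g) n := by
  have hD : ∀ p ∈ C.1, p ∈ passes D := fun p hp => mem_passes.2 ⟨C, hC, hp⟩
  have emate : ∀ z ∈ C.1, ∀ z' ∈ C.1, z' ≠ z → kap z' = kap z → colour z.crossing % 2 = 0 →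
      z' = z.mate := by
    intro z hz z' hz' k1 k2 k3
    rcases only_two hc (hD z hz) (hD z' hz') (hW.1 z (hD z hz)) k1 k2 (kap_mate_even k3) with h | h
    · exact absurd h (mate_ne z)
    · exact h.symm
  have ex := emate x hx x' hx' h1 h2 hkx
  have ey := emate y hy y' hy' h3 h4 hky
  -- the overpassages
  set A := ov x with hA
  set B := ov y with hB
  have hAN : A ∈ NN D cmp g := ov_NN hW (hD x hx) h6
  have hBN : B ∈ NN D cmp g := ov_NN hW (hD y hy) h7
  have hAc : colour A.crossing = colour x.crossing := by rw [hA, ov_crossing]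
  have hBc : colour B.crossing = colour y.crossing := by rw [hB, ov_crossing]
  have hAB : A ≠ B := fun h => h5 (by rw [← hAc, h, hBc])
  have hil : Il C A B := by
    have key : ∀ z ∈ C.1, z.mate ∈ C.1 → ov z ∈ C.1 ∧ (ov z).mate ∈ C.1 := by
      intro z hz hz'
      unfold ov
      split_ifs
      · exact ⟨hz, hz'⟩
      · exact ⟨hz', by rw [mate_mate']; exact hz⟩
    rw [ex] at hx' hns
    rw [ey] at hy' hns
    refine ⟨(key x hx hx').1, (key x hx hx').2, (key y hy hy').1, (key y hy hy').2, ?_⟩
    intro h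
    apply hns
    rw [hA, hB] at h
    unfold ov at h
    split_ifs at h
    · exact h
    · rw [mate_mate'] at h; exact ns_swap'.1 h
    · rw [mate_mate'] at h; exact ns_swap.1 h
    · rw [mate_mate', mate_mate'] at h; exact ns_swap.1 (ns_swap'.1 h)
  have colN : ∀ p ∈ NN D cmp g, ∀ q ∈ NN D cmp g, colour p.crossing % 2 = 0 → p ≠ q →
      colour p.crossing ≠ colour q.crossing := by
    intro p hp q hq k1 k2 k3
    have hp' := mem_NN.1 hp
    have hq' := mem_NN.1 hq
    have k4 : p.mate ≠ q := by
      intro e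
      have := congrArg Pass.isOver e
      rw [hq'.2.1] at this
      have h8 : p.mate.isOver = !p.isOver := rfl
      rw [h8, hp'.2.1] at this
      exact absurd this (by simp)
    have := three_le hp'.1 (hW.1 p hp'.1) hq'.1 rfl (kap_mate_even k1)
      (kap_even k1 rfl k3.symm) (mate_ne p).symm k2 k4
    have := hc (kap p)
    omega
  have mNN : ∀ p ∈ passes D, cmp (colour p.crossing) = g → ∀ L : List Pass,
      (∀ q ∈ NN D cmp g, q ∈ L) → ∃ q ∈ L, p = q ∨ p = q.mate := by
    intro p hp hpg L hL
    exact ⟨ov p, hL _ (ov_NN hW hp hpg), ov_or p⟩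
  have nd2 : [A, B].Nodup := by simp [hAB]
  have sub2 : ∀ p ∈ [A, B], p ∈ NN D cmp g := by
    intro p hp
    simp only [List.mem_cons, List.not_mem_nil, or_false] at hp
    rcases hp with rfl | rfl
    · exact hAN
    · exact hBN
  have hcr : A.crossing ≠ B.crossing := NN_cross hW hAN hBN hAB
  rcases hfew with hf | ⟨hf, q, hq, r, hr, hqr⟩
  · -- two ends: impossible
    exfalso
    have hall2 : ∀ q ∈ NN D cmp g, q ∈ [A, B] := fun q hq => perm_NN nd2 sub2 hf hq
    obtain ⟨u1, u2, v1, v2, hns'⟩ := hil
    have key : ∀ p q : Pass, p.crossing ≠ q.crossing → p ≠ q ∧ p ≠ q.mate ∧ p.mate ≠ q ∧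
        p.mate ≠ q.mate := by
      intro p q h
      refine ⟨fun e => h (by rw [e]), fun e => h ?_, fun e => h ?_, fun e => h ?_⟩
      · have := congrArg Pass.crossing e; exact this
      · have := congrArg Pass.crossing e; exact this
      · have := congrArg Pass.crossing e; exact this
    obtain ⟨k1, k2, k3, k4⟩ := key A B hcr
    have hidx := index (cmp := cmp) (g := g) hn hI hW hm hc hg hC u1 u2 (mate_ne A)
      (kap_mate_even (by rw [hAc]; exact hkx)) (by rw [hAc]; exact hkx) (by rw [hAc]; exact h6)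
      (L := [B, B.mate])
      (by
        simp only [List.nodup_cons, List.mem_cons, List.not_mem_nil, or_false,
          List.nodup_nil, not_false_eq_true, and_true]
        exact (mate_ne B).symm)
      (by
        intro h
        simp only [List.mem_cons, List.not_mem_nil, or_false] at h
        rcases h with h | h
        · exact k1 h
        · exact k2 h)
      (by
        intro h
        simp only [List.mem_cons, List.not_mem_nil, or_false] at h
        rcases h with h | h
        · exact k3 h
        · exact k4 h)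
      (by
        intro p hp
        simp only [List.mem_cons, List.not_mem_nil, or_false] at hp
        rcases hp with rfl | rfl
        · rw [hBc]; exact h7
        · show cmp (colour B.crossing) = g; rw [hBc]; exact h7)
      (by
        intro p hp hpg
        obtain ⟨q, hq, h⟩ := mNN p hp hpg _ hall2
        simp only [List.mem_cons, List.not_mem_nil, or_false] at hq ⊢
        rcases hq with rfl | rfl
        · rcases h with h | h
          · exact Or.inl h
          · exact Or.inr (Or.inl h)
        · exact Or.inr (Or.inr h))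
    simp only [List.map_cons, List.map_nil, List.sum_cons, List.sum_nil, sg_mate] at hidx
    exact hns' (bool_two (sg_one B) hidx)
  · -- three ends
    have hqrn : q ≠ r := fun h => hqr (by rw [h])
    have evN : ∀ p ∈ NN D cmp g, colour p.crossing % 2 = 0 := by
      intro p hp
      by_contra hodd
      have hp' := mem_NN.1 hp
      obtain ⟨C', hC', hpC'⟩ := mem_passes.1 hp'.1
      obtain ⟨p2, j1, j2, j3, j4⟩ := old_ex hn hI hm hc hC' hpC'
      have hp2D : p2 ∈ passes D := mem_passes.2 ⟨C', hC', j1⟩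
      have jo : p2.isOver = p.isOver := over_of_kap hodd j3
      have hp2 : p2 ∈ NN D cmp g := mem_NN.2 ⟨hp2D, by rw [jo, hp'.2.1],
        by rw [col_of_kap j3]; exact hp'.2.2⟩
      have : [A, B, p, p2].length ≤ (NN D cmp g).length := by
        refine len_le ?_ ?_
        · have e1 : A ≠ p := fun h => hodd (by rw [← h, hAc]; exact hkx)
          have e2 : B ≠ p := fun h => hodd (by rw [← h, hBc]; exact hky)
          have e3 : A ≠ p2 := fun h => hodd (by rw [← col_of_kap j3, ← h, hAc]; exact hkx)
          have e4 : B ≠ p2 := fun h => hodd (by rw [← col_of_kap j3, ← h, hBc]; exact hky)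
          simp only [List.nodup_cons, List.mem_cons, List.not_mem_nil, or_false, not_or,
            List.nodup_nil, not_false_eq_true, and_true]
          exact ⟨⟨hAB, e1, e3⟩, ⟨e2, e4⟩, Ne.symm j2⟩
        · intro z hz
          simp only [List.mem_cons, List.not_mem_nil, or_false] at hz
          rcases hz with rfl | rfl | rfl | rfl
          · exact hAN
          · exact hBN
          · exact hp
          · exact hp2
      rw [hf] at this
      simp at this
    -- the third end
    obtain ⟨c, hcN, hcq, hcr'⟩ : ∃ c ∈ NN D cmp g, c ≠ q ∧ c ≠ r := by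
      by_contra hno
      push Not at hno
      have hs : NN D cmp g ⊆ [q, r] := by
        intro c hc'
        by_cases h : c = q
        · simp [h]
        · simp [hno c hc' h]
      have := (List.subperm_of_subset (NN_nodup hW) hs).length_le
      rw [hf] at this
      simp at this
    have nd3 : [q, r, c].Nodup := by
      simp only [List.nodup_cons, List.mem_cons, List.not_mem_nil, or_false, not_or,
        List.nodup_nil, not_false_eq_true, and_true]
      exact ⟨⟨hqrn, Ne.symm hcq⟩, Ne.symm hcr'⟩
    have sub3 : ∀ p ∈ [q, r, c], p ∈ NN D cmp g := by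
      intro p hp
      simp only [List.mem_cons, List.not_mem_nil, or_false] at hp
      rcases hp with rfl | rfl | rfl
      · exact hq
      · exact hr
      · exact hcN
    have hall3 : ∀ p ∈ NN D cmp g, p ∈ [q, r, c] := fun p hp =>
      perm_NN nd3 sub3 (by rw [hf]; simp) hp
    have trans : ∀ u ∈ NN D cmp g, ∀ v ∈ NN D cmp g, ∀ w ∈ NN D cmp g, u ≠ v → u ≠ w → v ≠ w →
        (∀ p ∈ NN D cmp g, p = u ∨ p = v ∨ p = w) → Il C u v → Il C u w := by
      intro u hu v hv w hw n1 n2 n3 hall hil'
      have hu' := mem_NN.1 hu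
      have hv' := mem_NN.1 hv
      have hw' := mem_NN.1 hw
      refine il_trans hn hI hW hm hc hg hC (NN_cross hW hu hv n1) (NN_cross hW hu hw n2)
        (NN_cross hW hv hw n3) (evN u hu) (evN w hw) hu'.2.2 hv'.2.2 hw'.2.2 ?_ hil'
      intro p hp hpg
      have h8 := hall _ (ov_NN hW hp hpg)
      simp only [List.mem_cons, List.not_mem_nil, or_false]
      rcases h8 with h8 | h8 | h8 <;> rcases ov_or p with h9 | h9 <;> rw [h8] at h9 <;> simp [h9]
    have hmem3 : ∀ p ∈ NN D cmp g, p = q ∨ p = r ∨ p = c := by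
      intro p hp
      have := hall3 p hp
      simpa using this
    have cr : ∀ p ∈ NN D cmp g, ∀ p' ∈ NN D cmp g, p ≠ p' → p.crossing ≠ p'.crossing :=
      fun p hp p' hp' h => NN_cross hW hp hp' h
    have hcq3 : Il C c q := by
      rcases hmem3 A hAN with hAe | hAe | hAe <;> rcases hmem3 B hBN with hBe | hBe | hBe <;>
        rw [hAe, hBe] at hil
      · exact absurd (hAe.trans hBe.symm) hAB
      · exact (trans q hq r hr c hcN hqrn (Ne.symm hcq) (Ne.symm hcr')
          (fun p hp => hmem3 p hp) hil).symm (cr q hq c hcN (Ne.symm hcq))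
      · exact hil.symm (cr q hq c hcN (Ne.symm hcq))
      · have k1 := trans r hr q hq c hcN (Ne.symm hqrn) (Ne.symm hcr') (Ne.symm hcq)
          (fun p hp => by rcases hmem3 p hp with h | h | h <;> simp [h]) hil
        have k2 := k1.symm (cr r hr c hcN (Ne.symm hcr'))
        exact trans c hcN r hr q hq hcr' hcq (Ne.symm hqrn)
          (fun p hp => by rcases hmem3 p hp with h | h | h <;> simp [h]) k2
      · exact absurd (hAe.trans hBe.symm) hAB
      · have k2 := hil.symm (cr r hr c hcN (Ne.symm hcr'))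
        exact trans c hcN r hr q hq hcr' hcq (Ne.symm hqrn)
          (fun p hp => by rcases hmem3 p hp with h | h | h <;> simp [h]) k2
      · exact hil
      · exact trans c hcN r hr q hq hcr' hcq (Ne.symm hqrn)
          (fun p hp => by rcases hmem3 p hp with h | h | h <;> simp [h]) hil
      · exact absurd (hAe.trans hBe.symm) hAB
    have hq' := mem_NN.1 hq
    have hr' := mem_NN.1 hr
    have hc' := mem_NN.1 hcN
    refine loc_tri hn hI hW hm hc hg hC hq'.1 hr'.1 hc'.1 hq'.2.1 hr'.2.1 (cr q hq r hr hqrn)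
      (cr q hq c hcN (Ne.symm hcq)) (cr r hr c hcN (Ne.symm hcr')) (evN q hq) (evN r hr)
      (evN c hcN) hq'.2.2 hr'.2.2 hc'.2.2 ?_ hqr hcq3
    intro p hp hpg
    have h8 := hmem3 _ (ov_NN hW hp hpg)
    simp only [List.mem_cons, List.not_mem_nil, or_false]
    rcases h8 with h8 | h8 | h8 <;> rcases ov_or p with h9 | h9 <;> rw [h8] at h9 <;> simp [h9]

/-- components with interleaved curves -/
theorem loc_lk (hL : Lk D cmp g) (hfew : Few D cmp g) :
    ∃ n, Loc D (fun p => cmp (colour p.crossing) = g) n := by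
  obtain ⟨C, hC, x, hx, x', hx', y, hy, y', hy', h1, h2, h3, h4, h5, h6, h7, hns⟩ := hL
  have hD : ∀ p ∈ C.1, p ∈ passes D := fun p hp => mem_passes.2 ⟨C, hC, hp⟩
  have hlen : (NN D cmp g).length ≤ 3 := by
    rcases hfew with h | ⟨h, -⟩ <;> omega
  by_cases hkx : colour x.crossing % 2 = 0
  · by_cases hky : colour y.crossing % 2 = 0
    · exact lk_ee hn hI hW hm hc hg hC hx hx' hy hy' h1 h2 h3 h4 h5 h6 h7 hkx hky hfew hns
    · exact ⟨id, lk_eo hn hI hW hm hc hg hC hx hx' hy hy' h1 h2 h3 h4 h6 h7 hkx hky hlen hns⟩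
  · by_cases hky : colour y.crossing % 2 = 0
    · have c1 := col_of_kap h2
      have c2 := col_of_kap h4
      have key : ∀ p q : Pass, colour p.crossing ≠ colour q.crossing → p ≠ q :=
        fun p q h e => h (by rw [e])
      refine ⟨id, lk_eo hn hI hW hm hc hg hC hy hy' hx hx' h3 h4 h1 h2 h7 h6 hky hkx hlen
        fun h => hns (ns_symm hy hy' hx hx' ?_ ?_ ?_ ?_ h)⟩
      · exact key _ _ (Ne.symm h5)
      · exact key _ _ (by rw [c1]; exact Ne.symm h5)
      · exact key _ _ (by rw [c2]; exact Ne.symm h5)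
      · exact key _ _ (by rw [c1, c2]; exact Ne.symm h5)
    · have := lk_oo hW hc (hD x hx) (hD x' hx') (hD y hy) (hD y' hy') h1 h2 h3 h4 h5 h6 h7 hkx hky
      omega

end

end Pool.Agent.L0h30.EN
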