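import Pool.Agent.L0h30.EN.Asm

/-! Slice discs such that the components of the double set have few ends on the link. -/

namespace Pool.Agent.L0h30.EN

open Pool.Agent.Y468.SR
open Pool.Agent.Y874.TP hiding S_REID S_REN S_THREE S_OUT S_CUT S_JUNC CStep CReid CM InvM InvC Inv3
open Pool.Agent.Y874.TP2
open Pool.Agent.Y874.TP2.T3
open Pool.Agent.R800.TP

/-- the curves in the component `g` cross one another evenly -/
def Evn (D : Code) (T : List (ℕ × ℕ × ℕ)) (cmp : ℕ → ℕ) (g : ℕ) : Prop :=
  ∀ q ∈ passes D, ∀ r ∈ passes D, cmp (colour q.crossing) = g → cmp (colour r.crossing) = g →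
    colour q.crossing ≠ colour r.crossing → Even ((T.flatMap crs).count s(ends q, ends r))

theorem loc_empty {D : Code} {P : Pass → Prop} (h : ∀ p, ¬P p) : Loc D P id :=
  ⟨fun _ _ p _ hP => absurd hP (h p), fun p _ hP => absurd hP (h p),
    fun _ _ x _ _ _ hP => absurd hP (h x), fun _ _ x _ hP => absurd hP (h x)⟩

theorem count_crs {T : List (ℕ × ℕ × ℕ)} {cmp : ℕ → ℕ}
    (hg : ∀ t ∈ T, cmp t.2.1 = cmp t.1 ∧ cmp t.2.2 = cmp t.1) {α β : ℕ × Bool}
    (h : cmp α.1 ≠ cmp β.1) : (T.flatMap crs).count s(α, β) = 0 := by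
  rw [List.count_eq_zero]
  intro hm
  obtain ⟨t, ht, he⟩ := List.mem_flatMap.1 hm
  obtain ⟨h1, h2⟩ := hg t ht
  simp only [crs, List.mem_cons, List.not_mem_nil, or_false, Sym2.eq_iff, curve] at he
  rcases he with (⟨rfl, rfl⟩ | ⟨rfl, rfl⟩) | (⟨rfl, rfl⟩ | ⟨rfl, rfl⟩) | (⟨rfl, rfl⟩ | ⟨rfl, rfl⟩) <;>
    simp_all

/-- discs such that each component of the double set has few ends, or its curves cross one another
evenly, can be replaced by ribbon discs -/
theorem few_ribbon {hd : Bool} {Z : ℕ → Prop} {D : Code} {T : List (ℕ × ℕ × ℕ)} {cmp : ℕ → ℕ}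
    (h : TMovie hd Z D T) (hZ : ∀ p ∈ passes D, ¬Z (colour p.crossing))
    (hn : (D.map Prod.snd).Nodup) (hc : ∀ κ, ((passes D).map ends).count κ ≤ 2)
    (hg : ∀ t ∈ T, cmp t.2.1 = cmp t.1 ∧ cmp t.2.2 = cmp t.1)
    (hAB : ∀ p ∈ passes D, Few D cmp (cmp (colour p.crossing)) ∨
      Evn D T cmp (cmp (colour p.crossing))) : Movie true false D [] := by
  classical
  obtain ⟨Ts, hI, hs⟩ := tmovie_inv' RD.reid RN.ren TH.three h hZ
  obtain ⟨m, hm⟩ := hI.inv
  have hD := tmovie_classical h
  have hW : WF (passes D) := hD.1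
  have hc' : ∀ κ, ((passes D).map kap).count κ ≤ 2 := hc
  have htp : Ts.flatMap tprs = T.flatMap crs := tprs_all hs
  have hgT : ∀ S ∈ Ts, cmp (colour S.b₁) = cmp (colour S.a₁) ∧
      cmp (colour S.c₁) = cmp (colour S.a₁) := by
    intro S hS
    have h1 : T3.sig S ∈ T.map fun t => (t, (true, true, true)) := by
      rw [← hs]; exact List.mem_map_of_mem hS
    obtain ⟨t, ht, h2⟩ := List.mem_map.1 h1
    obtain ⟨c1, c2⟩ := hg t ht
    simp only [T3.sig, Prod.ext_iff] at h2
    obtain ⟨⟨h3, h4, h5⟩, -⟩ := h2
    exact ⟨by rw [← h4, ← h3, c1], by rw [← h5, ← h3, c2]⟩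
  have hmem : ∀ C ∈ D, ∀ p ∈ C.1, p ∈ passes D := fun C hC p hp => mem_passes.2 ⟨C, hC, hp⟩
  -- the classes
  set cls : ℕ → ℕ ⊕ ℕ := fun k => if Lk D cmp (cmp k) then Sum.inl (cmp k) else Sum.inr k with hcls
  have cls_l : ∀ k, Lk D cmp (cmp k) → cls k = Sum.inl (cmp k) := fun k hk => by
    rw [hcls]; exact if_pos hk
  have cls_r : ∀ k, ¬Lk D cmp (cmp k) → cls k = Sum.inr k := fun k hk => by
    rw [hcls]; exact if_neg hk
  have hloc : ∀ γ, ∃ n, Loc D (fun p => cls (colour p.crossing) = γ) n := by
    rintro (g | k)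
    · by_cases hL : Lk D cmp g
      · have hfew : Few D cmp g := by
          obtain ⟨C, hC, x, hx, x', hx', y, hy, y', hy', h1, h2, h3, h4, h5, h6, h7, hns⟩ := hL
          rcases hAB x (hmem C hC x hx) with hf | he
          · rw [h6] at hf; exact hf
          · exfalso
            apply hns
            have he' := he x (hmem C hC x hx) y (hmem C hC y hy) rfl (by rw [h7, h6]) h5
            rw [← htp] at he'
            exact ns_even hn hI hW hm hc' hC hx hx' hy hy' h1 h2 h3 h4
              (fun e => h5 (col_of_kap e).symm) he'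
        obtain ⟨n, hl⟩ := loc_lk hn hI hW hm hc' hgT hL hfew
        refine ⟨n, hl.congr fun p => ⟨fun hp => ?_, fun hp => ?_⟩⟩
        · rw [cls_l _ (by rw [hp]; exact hL), hp]
        · by_cases hL' : Lk D cmp (cmp (colour p.crossing))
          · rw [cls_l _ hL'] at hp
            exact Sum.inl.inj hp
          · rw [cls_r _ hL'] at hp
            exact absurd hp (by simp)
      · refine ⟨id, loc_empty fun p hp => ?_⟩
        by_cases hL' : Lk D cmp (cmp (colour p.crossing))
        · rw [cls_l _ hL'] at hp
          exact hL (Sum.inl.inj hp ▸ hL')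
        · rw [cls_r _ hL'] at hp
          exact absurd hp (by simp)
    · by_cases hL : Lk D cmp (cmp k)
      · refine ⟨id, loc_empty fun p hp => ?_⟩
        by_cases hL' : Lk D cmp (cmp (colour p.crossing))
        · rw [cls_l _ hL'] at hp
          exact absurd hp (by simp)
        · rw [cls_r _ hL'] at hp
          exact hL' (by rw [Sum.inr.inj hp]; exact hL)
      · have heq : ∀ p : Pass, colour p.crossing = k ↔ cls (colour p.crossing) = Sum.inr k := by
          intro p
          constructor
          · intro hp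
            rw [hp, cls_r _ hL]
          · intro hp
            by_cases hL' : Lk D cmp (cmp (colour p.crossing))
            · rw [cls_l _ hL'] at hp
              exact absurd hp (by simp)
            · rw [cls_r _ hL'] at hp
              exact Sum.inr.inj hp
        by_cases hk : k % 2 = 0
        · exact ⟨id, (loc_even hn hI hW hm hc' hk).congr heq⟩
        · obtain ⟨n, hl⟩ := loc_odd hn hI hW hm hc' hk
          exact ⟨n, hl.congr heq⟩
  choose n hl using hloc
  set m' : ℕ → ℕ := fun c => n (cls (colour c)) c with hm'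
  have hpart : ∀ p : Pass, part m' p = part (n (cls (colour p.crossing))) p := by
    intro p; rfl
  have pmem : ∀ C ∈ D, ∀ p ∈ C.1, part m' p ∈ C.1 ∧
      cls (colour (part m' p).crossing) = cls (colour p.crossing) := by
    intro C hC p hp
    rw [hpart]
    exact (hl _).mem C hC p hp rfl
  have pcr : ∀ p : Pass, (part m' p).crossing = m' p.crossing := by
    intro p
    unfold part
    split_ifs with h1
    · exact h1.symm
    · rfl
  have mm : ∀ p ∈ passes D, m' (m' p.crossing) = p.crossing := by
    intro p hp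
    obtain ⟨C, hC, hpC⟩ := mem_passes.1 hp
    have h1 := (pmem C hC p hpC).2
    rw [pcr] at h1
    have h2 := (hl (cls (colour p.crossing))).inv p hp rfl
    have h3 : m' (m' p.crossing) = n (cls (colour (m' p.crossing))) (m' p.crossing) := rfl
    rw [h3, h1]
    exact h2
  -- the ends of curves in different classes are not interleaved
  have hold : ∀ C ∈ D, ∀ a ∈ C.1, ∀ a' ∈ C.1, ∀ b ∈ C.1, ∀ b' ∈ C.1, a' ≠ a → kap a' = kap a →
      b' ≠ b → kap b' = kap b → cls (colour a.crossing) ≠ cls (colour b.crossing) →
      ns C.1 a a' b b' := by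
    intro C hC a ha a' ha' b hb b' hb' h1 h2 h3 h4 h5
    have h6 : colour a.crossing ≠ colour b.crossing := fun e => h5 (by rw [e])
    by_cases h7 : cmp (colour a.crossing) = cmp (colour b.crossing)
    · by_contra hns
      have hL : Lk D cmp (cmp (colour a.crossing)) :=
        ⟨C, hC, a, ha, a', ha', b, hb, b', hb', h1, h2, h3, h4, h6, rfl, h7.symm, hns⟩
      apply h5
      rw [cls_l _ hL, cls_l _ (by rw [← h7]; exact hL), h7]
    · refine ns_even hn hI hW hm hc' hC ha ha' hb hb' h1 h2 h3 h4
        (fun e => h6 (col_of_kap e).symm) ?_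
      rw [htp, count_crs hg (by exact h7)]
      exact Even.zero
  have hmt : Matching (passes D) m' := by
    intro p hp
    obtain ⟨C, hC, hpC⟩ := mem_passes.1 hp
    refine ⟨part m' p, hmem C hC _ (pmem C hC p hpC).1, pcr p, ?_, ?_⟩
    · rw [pcr]; exact mm p hp
    · intro hne
      unfold part at hne ⊢
      split_ifs at hne ⊢ with h1
      · exact absurd rfl hne
      · rfl
  have hnull : Null D m' := by
    intro G _ o u hv C hC
    have hnd := circ_nodup hW hC
    have pinv : ∀ p ∈ C.1, part m' (part m' p) = p := fun p hp =>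
      Pool.Agent.Y759.TP2.part_invol hmt (hmem C hC p hp)
    have pne : ∀ p : Pass, part m' p ≠ p := by
      intro p e
      have h1 := Pool.Agent.Y759.TP2.sg_part m' p
      rw [e] at h1
      rcases sg_one p with h2 | h2 <;> rw [h2] at h1 <;> simp at h1
    refine prod_ns (val o u) (part m') C.1 hnd (fun x hx => ⟨(pmem C hC x hx).1, pne x, pinv x hx,
      ?_⟩) ?_
    · obtain ⟨v1, v2⟩ := hv x (hmem C hC x hx)
      unfold part
      split_ifs with h1
      · have h2 := v1 h1
        unfold val Pass.mate
        cases h3 : x.isOver <;> simp [h2]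
      · obtain ⟨h2, h3⟩ := v2 h1
        unfold val
        simp only
        split_ifs
        · exact h2
        · exact h3
    · intro x hx y hy hyx hyx'
      by_cases hxy : cls (colour y.crossing) = cls (colour x.crossing)
      · have := (hl (cls (colour x.crossing))).nc C hC x hx y hy rfl hxy hyx
          (by rw [← hpart]; exact hyx')
        rw [hpart, hpart y, hxy]
        exact this
      · have hx1 := (pmem C hC x hx).1
        have hy1 := (pmem C hC y hy).1
        have hyc := (pmem C hC y hy).2
        -- the curves of the class of `x` do not separate the ends of the new chord of `y`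
        rw [hpart x]
        refine (hl (cls (colour x.crossing))).hull C hC x hx rfl y hy (part m' y) hy1 hxy
          (by rw [hyc]; exact hxy) ?_
        intro a ha a' ha' hPa h1 h2
        have hPa' : cls (colour a'.crossing) = cls (colour x.crossing) := by
          rw [col_of_kap h2]; exact hPa
        have key : ns C.1 y (part m' y) a a' := by
          rw [hpart y]
          refine (hl (cls (colour y.crossing))).hull C hC y hy rfl a ha a' ha'
            (by rw [hPa]; exact Ne.symm hxy) (by rw [hPa']; exact Ne.symm hxy) ?_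
          intro b hb b' hb' hPb h3 h4
          exact hold C hC b hb b' hb' a ha a' ha' h3 h4 h1 h2 (by rw [hPb, hPa]; exact hxy)
        have dis : ∀ p q : Pass, cls (colour p.crossing) ≠ cls (colour q.crossing) → p ≠ q :=
          fun p q hpq e => hpq (by rw [e])
        refine ns_symm hy hy1 ha ha' ?_ ?_ ?_ ?_ key
        · exact dis _ _ (by rw [hPa]; exact hxy)
        · exact dis _ _ (by rw [hPa']; exact hxy)
        · exact dis _ _ (by rw [hPa, hyc]; exact hxy)
        · exact dis _ _ (by rw [hPa', hyc]; exact hxy)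
  exact movie_mono (ribbon_of_inv _ D le_rfl hD hn (inv_of_null hmt hnull))

end Pool.Agent.L0h30.EN
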