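import Pool.Agent.L0h30.EN.Old

/-! The index of a crossing on a double curve with a branch point. -/

namespace Pool.Agent.L0h30.EN

open Pool.Agent.Y468.SR
open Pool.Agent.Y874.TP hiding S_REID S_REN S_THREE S_OUT S_CUT S_JUNC CStep CReid CM InvM InvC Inv3
open Pool.Agent.Y874.TP2
open Pool.Agent.Y874.TP2.T3
open Pool.Agent.R800.TP

/-- the flow along all curves in the component `g` -/
def fg (cmp : ℕ → ℕ) (g : ℕ) (p : Pass) : ℤ := if cmp (colour p.crossing) = g then sg p else 0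

variable {cmp : ℕ → ℕ} {g : ℕ}

theorem col_of_kap {p q : Pass} (h : kap p = kap q) : colour p.crossing = colour q.crossing := by
  have h1 : (kap p).1 = (kap q).1 := by rw [h]
  exact h1

theorem fg_part {P : List Pass} {m : ℕ → ℕ} (hc : CM P m) {p : Pass} (hp : p ∈ P) :
    fg cmp g (part m p) = -fg cmp g p := by
  unfold fg
  rw [col_of_kap (Pool.Agent.Y759.TP2.kap_part hc hp), Pool.Agent.Y759.TP2.sg_part]
  split_ifs <;> simp

theorem fg_two {p q : Pass} (h1 : sg q = -sg p) (h2 : kap q = kap p) :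
    fg cmp g q = -fg cmp g p := by
  unfold fg
  rw [h1, col_of_kap h2]
  split_ifs <;> simp

theorem sum_word_fg (e : Bool) {p₁ p₂ q₁ q₂ : Pass} (h1 : sg p₂ = -sg p₁)
    (h2 : sg q₂ = -sg q₁) (h3 : kap p₂ = kap p₁) (h4 : kap q₂ = kap q₁) :
    ((word4 e p₁ p₂ q₁ q₂).map (fg cmp g)).sum = 0 := by
  have e1 := fg_two (cmp := cmp) (g := g) h1 h3
  have e2 := fg_two (cmp := cmp) (g := g) h2 h4
  cases e <;> simp only [word4, Bool.false_eq_true, if_false, if_true, List.map_cons, List.map_nil,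
    List.sum_cons, List.sum_nil, e1, e2] <;> ring

/-- a sign -/
def bz (b : Bool) : ℤ := if b then 1 else -1

theorem om_word4 {f f' : Pass → ℤ} (e : Bool) {p₁ p₂ q₁ q₂ : Pass} (h1 : f p₂ = -f p₁)
    (h2 : f q₂ = -f q₁) (h3 : f' p₂ = -f' p₁) (h4 : f' q₂ = -f' q₁) :
    om f f' (word4 e p₁ p₂ q₁ q₂) = bz e * (2 * (f q₁ * f' p₁ - f' q₁ * f p₁)) := by
  cases e <;> simp only [word4, Bool.false_eq_true, if_false, if_true, om, List.map_cons,
    List.map_nil, List.sum_cons, List.sum_nil, h1, h2, h3, h4, bz] <;> ring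

theorem fk_col {k : ℕ} (hk : k % 2 = 0) (p : Pass) :
    fk (k, true) p = if colour p.crossing = k then sg p else 0 := by
  unfold fk kap lc
  by_cases h : colour p.crossing = k
  · rw [h, if_pos rfl, if_pos]
    simp [hk]
  · rw [if_neg h, if_neg]
    intro h'
    exact h (congrArg Prod.fst h')

theorem sign_id : ∀ ta tb tc sa sb sc ei ej ek : Bool, (tc = tb ∨ ta = tb) →
    xor (xor sa (xor ei ej)) (ta == tb && ta != tc) =
      xor (xor sb (xor (!ei) ek)) (ta == tc) →
    xor (xor sb (xor (!ei) ek)) (ta == tc) = xor (xor sc (xor ej ek)) (ta != tb) →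
    (xor ei (xor (ta == !sa) (tb == !sb)) = xor ej (xor (ta == !sa) (tc == !sc)) ∧
      xor ei (xor (ta == !sa) (tb == !sb)) = xor ek (xor (tb == !sb) (tc == !sc))) := by
  decide

theorem bz_xor (a b : Bool) : bz (xor a b) = -(bz a * bz b) := by
  cases a <;> cases b <;> simp [bz]

theorem sg_bz (c : ℕ) (o s : Bool) : sg ⟨c, o, s⟩ = bz (o == s) := by
  cases o <;> cases s <;> simp [sg, bz]

theorem sg_mate (p : Pass) : sg p.mate = -sg p := by
  obtain ⟨c, o, s⟩ := p
  cases o <;> cases s <;> simp [sg, Pass.mate]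

theorem om_tri_ind {k : ℕ} (hk : k % 2 = 0) {T : Tri} (hO : T.Ok) (hc : T.Col)
    (h2 : cmp (colour T.b₁) = cmp (colour T.a₁)) (h3 : cmp (colour T.c₁) = cmp (colour T.a₁)) :
    (T.code.map fun C => om (fk (k, true)) (fg cmp g) C.1).sum = 0 := by
  obtain ⟨k1, k2, k3⟩ := hc
  have a1 := Pool.Agent.Y759.TP2.sg_pos T.a₁ T.a₂ T.ta T.sa
  have a2 := Pool.Agent.Y759.TP2.kap_col T.a₁ T.a₂ T.ta T.sa (!T.sa) k1
  have a3 := Pool.Agent.Y759.TP2.sg_mate_pos T.a₁ T.a₂ T.ta T.sa
  have a4 := Pool.Agent.Y759.TP2.kap_mate_col T.a₁ T.a₂ T.ta T.sa (!T.sa) k1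
  have b1 := Pool.Agent.Y759.TP2.sg_pos T.b₁ T.b₂ T.tb T.sb
  have b2 := Pool.Agent.Y759.TP2.kap_col T.b₁ T.b₂ T.tb T.sb (!T.sb) k2
  have b3 := Pool.Agent.Y759.TP2.sg_mate_pos T.b₁ T.b₂ T.tb T.sb
  have b4 := Pool.Agent.Y759.TP2.kap_mate_col T.b₁ T.b₂ T.tb T.sb (!T.sb) k2
  have c1 := Pool.Agent.Y759.TP2.sg_pos T.c₁ T.c₂ T.tc T.sc
  have c2 := Pool.Agent.Y759.TP2.kap_col T.c₁ T.c₂ T.tc T.sc (!T.sc) k3
  have c3 := Pool.Agent.Y759.TP2.sg_mate_pos T.c₁ T.c₂ T.tc T.sc
  have c4 := Pool.Agent.Y759.TP2.kap_mate_col T.c₁ T.c₂ T.tc T.sc (!T.sc) k3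
  have o1 : om (fk (k, true)) (fg cmp g) T.wi = _ := om_word4 T.ei (p₁ := T.pa₁) (p₂ := T.pa₂)
    (q₁ := T.pb₁) (q₂ := T.pb₂) (fk_two _ a1 a2) (fk_two _ b1 b2) (fg_two a1 a2) (fg_two b1 b2)
  have o2 : om (fk (k, true)) (fg cmp g) T.wj = _ := om_word4 T.ej (p₁ := T.pa₁.mate)
    (p₂ := T.pa₂.mate) (q₁ := T.pc₁) (q₂ := T.pc₂) (fk_two _ a3 a4) (fk_two _ c1 c2)
    (fg_two a3 a4) (fg_two c1 c2)
  have o3 : om (fk (k, true)) (fg cmp g) T.wk = _ := om_word4 T.ek (p₁ := T.pb₁.mate)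
    (p₂ := T.pb₂.mate) (q₁ := T.pc₁.mate) (q₂ := T.pc₂.mate) (fk_two _ b3 b4) (fk_two _ c3 c4)
    (fg_two b3 b4) (fg_two c3 c4)
  simp only [Tri.code, List.map_cons, List.map_nil, List.sum_cons, List.sum_nil]
  rw [o1, o2, o3]
  simp only [fk_col hk, fg]
  have e1 : T.pa₁.crossing = T.a₁ := rfl
  have e2 : T.pb₁.crossing = T.b₁ := rfl
  have e3 : T.pc₁.crossing = T.c₁ := rfl
  have e4 : T.pa₁.mate.crossing = T.a₁ := rfl
  have e5 : T.pb₁.mate.crossing = T.b₁ := rfl
  have e6 : T.pc₁.mate.crossing = T.c₁ := rfl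
  rw [e1, e2, e3, e4, e5, e6, sg_mate, sg_mate, sg_mate, h2, h3]
  by_cases hg : cmp (colour T.a₁) = g
  · simp only [if_pos hg]
    obtain ⟨i1, i2⟩ := sign_id T.ta T.tb T.tc T.sa T.sb T.sc T.ei T.ej T.ek hO.1 hO.2.1 hO.2.2
    have s1 : sg T.pa₁ = bz (T.ta == !T.sa) := sg_bz _ _ _
    have s2 : sg T.pb₁ = bz (T.tb == !T.sb) := sg_bz _ _ _
    have s3 : sg T.pc₁ = bz (T.tc == !T.sc) := sg_bz _ _ _
    have j1 := congrArg bz i1
    have j2 := congrArg bz i2
    simp only [bz_xor, ← s1, ← s2, ← s3] at j1 j2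
    have f1 : (if colour T.a₁ = k then sg T.pa₁ else 0) =
        (if colour T.a₁ = k then (1 : ℤ) else 0) * sg T.pa₁ := by split_ifs <;> simp
    have f2 : (if colour T.b₁ = k then sg T.pb₁ else 0) =
        (if colour T.b₁ = k then (1 : ℤ) else 0) * sg T.pb₁ := by split_ifs <;> simp
    have f3 : (if colour T.c₁ = k then sg T.pc₁ else 0) =
        (if colour T.c₁ = k then (1 : ℤ) else 0) * sg T.pc₁ := by split_ifs <;> simp
    have f4 : (if colour T.a₁ = k then -sg T.pa₁ else 0) =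
        -((if colour T.a₁ = k then (1 : ℤ) else 0) * sg T.pa₁) := by split_ifs <;> simp
    have f5 : (if colour T.b₁ = k then -sg T.pb₁ else 0) =
        -((if colour T.b₁ = k then (1 : ℤ) else 0) * sg T.pb₁) := by split_ifs <;> simp
    have f6 : (if colour T.c₁ = k then -sg T.pc₁ else 0) =
        -((if colour T.c₁ = k then (1 : ℤ) else 0) * sg T.pc₁) := by split_ifs <;> simp
    rw [f1, f2, f3, f4, f5, f6]
    generalize (if colour T.a₁ = k then (1 : ℤ) else 0) = α
    generalize (if colour T.b₁ = k then (1 : ℤ) else 0) = β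
    generalize (if colour T.c₁ = k then (1 : ℤ) else 0) = γ
    generalize sg T.pa₁ = s at *
    generalize sg T.pb₁ = t at *
    generalize sg T.pc₁ = r at *
    generalize bz T.ei = E at *
    generalize bz T.ej = F at *
    generalize bz T.ek = H at *
    have j1' : E * s * t = F * s * r := by linarith
    have j2' : E * s * t = H * t * r := by linarith
    linear_combination (2 * (β - α)) * j2' + (2 * (γ - α)) * j1' - (2 * (γ - α)) * j2'
  · simp only [if_neg hg]
    ring

theorem sum_tri_fg {T : Tri} (hc : T.Col) : ∀ C ∈ T.code, (C.1.map (fg cmp g)).sum = 0 := by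
  obtain ⟨h1, h2, h3⟩ := hc
  have a1 := Pool.Agent.Y759.TP2.sg_pos T.a₁ T.a₂ T.ta T.sa
  have a2 := Pool.Agent.Y759.TP2.kap_col T.a₁ T.a₂ T.ta T.sa (!T.sa) h1
  have a3 := Pool.Agent.Y759.TP2.sg_mate_pos T.a₁ T.a₂ T.ta T.sa
  have a4 := Pool.Agent.Y759.TP2.kap_mate_col T.a₁ T.a₂ T.ta T.sa (!T.sa) h1
  have b1 := Pool.Agent.Y759.TP2.sg_pos T.b₁ T.b₂ T.tb T.sb
  have b2 := Pool.Agent.Y759.TP2.kap_col T.b₁ T.b₂ T.tb T.sb (!T.sb) h2
  have b3 := Pool.Agent.Y759.TP2.sg_mate_pos T.b₁ T.b₂ T.tb T.sb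
  have b4 := Pool.Agent.Y759.TP2.kap_mate_col T.b₁ T.b₂ T.tb T.sb (!T.sb) h2
  have c1 := Pool.Agent.Y759.TP2.sg_pos T.c₁ T.c₂ T.tc T.sc
  have c2 := Pool.Agent.Y759.TP2.kap_col T.c₁ T.c₂ T.tc T.sc (!T.sc) h3
  have c3 := Pool.Agent.Y759.TP2.sg_mate_pos T.c₁ T.c₂ T.tc T.sc
  have c4 := Pool.Agent.Y759.TP2.kap_mate_col T.c₁ T.c₂ T.tc T.sc (!T.sc) h3
  intro C hC
  simp only [Tri.code, List.mem_cons, List.not_mem_nil, or_false] at hC
  rcases hC with rfl | rfl | rfl
  · exact sum_word_fg _ a1 b1 a2 b2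
  · exact sum_word_fg _ a3 c1 a4 c2
  · exact sum_word_fg _ b3 c3 b4 c4

theorem om_tris_ind {k : ℕ} (hk : k % 2 = 0) {Ts : List Tri} (hc : ∀ T ∈ Ts, T.Ok ∧ T.Col)
    (hg : ∀ T ∈ Ts, cmp (colour T.b₁) = cmp (colour T.a₁) ∧ cmp (colour T.c₁) = cmp (colour T.a₁)) :
    (∀ C ∈ TC Ts, (C.1.map (fg cmp g)).sum = 0) ∧
    ((TC Ts).map fun C => om (fk (k, true)) (fg cmp g) C.1).sum = 0 := by
  induction Ts with
  | nil => exact ⟨by simp [TC], by simp [TC]⟩
  | cons T Ts ih =>
    obtain ⟨i1, i2⟩ := ih (fun T' hT' => hc T' (by simp [hT'])) fun T' hT' => hg T' (by simp [hT'])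
    have hT := hc T (by simp)
    have hT' := hg T (by simp)
    rw [TC_cons]
    refine ⟨fun C hC => ?_, ?_⟩
    · rcases List.mem_append.1 hC with h | h
      · exact sum_tri_fg hT.2 C h
      · exact i1 C h
    · rw [List.map_append, List.sum_append, i2, om_tri_ind hk hT.1 hT.2 hT'.1 hT'.2, add_zero]

section
variable {D : Code} {Ts : List Tri} {m : ℕ → ℕ} (hn : (D.map Prod.snd).Nodup) (hI : InvB D Ts)
  (hW : WF (passes D))
  (hm : InvM (D ++ TC Ts) m) (hc : ∀ κ, ((passes D).map kap).count κ ≤ 2)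
  (hg : ∀ T ∈ Ts, cmp (colour T.b₁) = cmp (colour T.a₁) ∧ cmp (colour T.c₁) = cmp (colour T.a₁))

include hn hI hm hg hW hc

theorem ind_word {C : List Pass × ℕ} (hC : C ∈ D) {A M B : List Pass} {z z' : Pass}
    (e : C.1 = A ++ z :: (M ++ z' :: B)) (hz : kap z' = kap z) (hk : colour z.crossing % 2 = 0)
    (hzg : cmp (colour z.crossing) = g) : (M.map (fg cmp g)).sum = 0 := by
  obtain ⟨a1, a2⟩ := om_tris_ind (cmp := cmp) (g := g) hk hI.ok hg
  have a3 : ∀ C ∈ TC Ts, (C.1.map (fk (colour z.crossing, true))).sum = 0 := by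
    have hne : ((colour z.crossing, true) : ℕ × Bool) ≠ (colour z.crossing, false) := by simp
    exact (om_tris hne (Ts := Ts) fun T hT => (hI.ok T hT).2).1
  obtain ⟨-, h2⟩ := Pool.Agent.Y761.TP2.flow D (TC Ts) m (fk (colour z.crossing, true)) (fg cmp g)
    hn hI.wf hm.1 hm.2.2 (fun p hp => ⟨fk_part hm.2.1 _ hp, fg_part hm.2.1 hp⟩)
    (fun C hC => ⟨a3 C hC, a1 C hC⟩)
  rw [List.map_append, List.sum_append, a2, add_zero] at h2
  have hkz : kap z = (colour z.crossing, true) := by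
    unfold kap lc
    simp [hk]
  have hmem : ∀ y ∈ C.1, y ∈ passes D := fun y hy => mem_passes.2 ⟨C, hC, hy⟩
  have hzC : z ∈ C.1 := by rw [e]; simp
  have hzC' : z' ∈ C.1 := by rw [e]; simp
  have hnd := circ_nodup hW hC
  have hzz : z' ≠ z := by
    intro h
    rw [e, h] at hnd
    have := (List.nodup_cons.1 (List.nodup_append.1 hnd).2.1).1
    exact this (by simp)
  have hs : sg z' = -sg z := (old_mem hn hI hm hc hC hzC (hmem z' hzC') hzz hz).2
  -- the flow vanishes outside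
  have hz0 : ∀ y ∈ passes D, y ≠ z → y ≠ z' → fk (colour z.crossing, true) y = 0 := by
    intro y hy h3 h4
    unfold fk
    rw [if_neg]
    intro h5
    rcases only_two hc (hmem z hzC) (hmem z' hzC') hy hzz hz (by rw [h5, hkz]) with h | h
    · exact h3 h
    · exact h4 h
  rw [e] at hnd
  have hn2 := hnd
  rw [List.nodup_append, List.nodup_cons, List.nodup_append, List.nodup_cons] at hn2
  obtain ⟨k1, ⟨k2, k3, ⟨k4, k5⟩, k6⟩, k7⟩ := hn2
  have zA : ∀ y ∈ A, fk (colour z.crossing, true) y = 0 := fun y hy =>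
    hz0 y (hmem y (by rw [e]; simp [hy])) (fun h => k7 y hy z (by simp) h)
      (fun h => k7 y hy z' (by simp) h)
  have zM : ∀ y ∈ M, fk (colour z.crossing, true) y = 0 := fun y hy =>
    hz0 y (hmem y (by rw [e]; simp [hy])) (fun h => k2 (by simp [← h, hy]))
      (fun h => k6 y hy z' (by simp) h)
  have zB : ∀ y ∈ B, fk (colour z.crossing, true) y = 0 := fun y hy =>
    hz0 y (hmem y (by rw [e]; simp [hy])) (fun h => k2 (by simp [← h, hy]))
      (fun h => k4 (h ▸ hy))
  have hCsum : om (fk (colour z.crossing, true)) (fg cmp g) C.1 =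
      sg z * (2 * (M.map (fg cmp g)).sum) := by
    have f1 : fk (colour z.crossing, true) z = sg z := by unfold fk; rw [if_pos hkz]
    have f2 : fk (colour z.crossing, true) z' = -fk (colour z.crossing, true) z :=
      fk_two _ hs hz
    have f3 : fg cmp g z' = -fg cmp g z := fg_two hs hz
    rw [e, om_key zA zM zB f2, f1, f3]
    ring
  have hrest : (D.map fun C => om (fk (colour z.crossing, true)) (fg cmp g) C.1).sum =
      om (fk (colour z.crossing, true)) (fg cmp g) C.1 := by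
    obtain ⟨D₁, D₂, hD⟩ := List.append_of_mem hC
    have hzero : ∀ C' ∈ D₁ ++ D₂, om (fk (colour z.crossing, true)) (fg cmp g) C'.1 = 0 := by
      intro C' hC'
      have hC'D : C' ∈ D := by
        rw [hD]
        rcases List.mem_append.1 hC' with h | h <;> simp [h]
      by_cases hCC : z ∈ C'.1 ∨ z' ∈ C'.1
      · exfalso
        have hCC' : C' = C := by
          rcases hCC with h | h
          · exact circ_unique hW hC hC'D hzC h
          · exact circ_unique hW hC hC'D hzC' h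
        have hDn : (D.map Prod.snd).Nodup := hn
        rw [hD, List.map_append, List.map_cons] at hDn
        rcases List.mem_append.1 hC' with h | h
        · exact (List.nodup_append.1 hDn).2.2 _ (List.mem_map_of_mem h) C.2 (by simp) (by rw [hCC'])
        · have := (List.nodup_cons.1 (List.nodup_append.1 hDn).2.1).1
          exact this (by rw [← hCC']; exact List.mem_map_of_mem h)
      · rw [not_or] at hCC
        refine om_zero fun y hy => hz0 y (mem_passes.2 ⟨C', hC'D, hy⟩) ?_ ?_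
        · rintro rfl; exact hCC.1 hy
        · rintro rfl; exact hCC.2 hy
    rw [hD, List.map_append, List.map_cons, List.sum_append, List.sum_cons]
    have s1 : (D₁.map fun C => om (fk (colour z.crossing, true)) (fg cmp g) C.1).sum = 0 := by
      refine List.sum_eq_zero fun a ha => ?_
      obtain ⟨C', hC', rfl⟩ := List.mem_map.1 ha
      exact hzero C' (by simp [hC'])
    have s2 : (D₂.map fun C => om (fk (colour z.crossing, true)) (fg cmp g) C.1).sum = 0 := by
      refine List.sum_eq_zero fun a ha => ?_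
      obtain ⟨C', hC', rfl⟩ := List.mem_map.1 ha
      exact hzero C' (by simp [hC'])
    rw [s1, s2]
    ring
  rw [hrest, hCsum] at h2
  rcases sg_one z with h | h <;> rw [h] at h2 <;> linarith

/-- the index in terms of positions -/
theorem index {C : List Pass × ℕ} (hC : C ∈ D) {z z' : Pass} (hzC : z ∈ C.1) (hzC' : z' ∈ C.1)
    (hzz : z' ≠ z) (hz : kap z' = kap z) (hk : colour z.crossing % 2 = 0)
    (hzg : cmp (colour z.crossing) = g) {L : List Pass} (hL : L.Nodup) (hLz : z ∉ L) (hLz' : z' ∉ L)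
    (hLg : ∀ p ∈ L, cmp (colour p.crossing) = g)
    (hall : ∀ p ∈ passes D, cmp (colour p.crossing) = g → p = z ∨ p = z' ∨ p ∈ L) :
    (L.map fun p => if btw (C.1.idxOf z) (C.1.idxOf z') (C.1.idxOf p) then sg p else 0).sum = 0 := by
  have hnd := circ_nodup hW hC
  have key : ∀ a a' : Pass, ∀ A M B, C.1 = A ++ a :: (M ++ a' :: B) → kap a' = kap a →
      (a = z ∧ a' = z' ∨ a = z' ∧ a' = z) →
      (L.map fun p => if btw (C.1.idxOf z) (C.1.idxOf z') (C.1.idxOf p) then sg p else 0).sum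
        = 0 := by
    intro a a' A M B e e1 e2
    have h0 : (M.map (fg cmp g)).sum = 0 := by
      refine ind_word hn hI hW hm hc hg hC e e1 ?_ ?_
      · rcases e2 with ⟨h, -⟩ | ⟨h, -⟩
        · rw [h]; exact hk
        · rw [h, col_of_kap hz]; exact hk
      · rcases e2 with ⟨h, -⟩ | ⟨h, -⟩
        · rw [h]; exact hzg
        · rw [h, col_of_kap hz]; exact hzg
    have hMd : M.Nodup := by
      rw [e] at hnd
      exact (List.nodup_append.1 (List.nodup_cons.1 (List.nodup_append.1 hnd).2.1).2).1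
    have hMC : ∀ p ∈ M, p ∈ C.1 := fun p hp => by rw [e]; simp [hp]
    have hMb : ∀ p, p ≠ z → p ≠ z' →
        (p ∈ M ↔ btw (C.1.idxOf z) (C.1.idxOf z') (C.1.idxOf p)) := by
      intro p h1 h2
      by_cases hp : p ∈ C.1
      · have hnd' := hnd
        rw [e] at hnd'
        obtain ⟨-, -, i3⟩ := idx_split hnd'
        rcases e2 with ⟨h3, h4⟩ | ⟨h3, h4⟩
        · have := i3 p (by rw [← e]; exact hp) (by rw [h3]; exact h1) (by rw [h4]; exact h2)
          rw [← e, h3, h4] at this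
          exact this
        · have := i3 p (by rw [← e]; exact hp) (by rw [h3]; exact h2) (by rw [h4]; exact h1)
          rw [← e, h3, h4] at this
          exact this.trans btw_swap
      · have e3 : C.1.idxOf p = C.1.length := List.idxOf_eq_length_iff.2 hp
        have e4 := List.idxOf_lt_length_iff.2 hzC
        have e5 := List.idxOf_lt_length_iff.2 hzC'
        constructor
        · intro h; exact absurd (hMC p h) hp
        · intro h
          unfold btw at h
          omega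
    have f1 : (M.map (fg cmp g)).sum = ∑ p ∈ M.toFinset, fg cmp g p := by
      rw [List.sum_toFinset _ hMd]
    have f2 : (L.map fun p => if btw (C.1.idxOf z) (C.1.idxOf z') (C.1.idxOf p) then sg p
        else 0).sum = ∑ p ∈ L.toFinset, if btw (C.1.idxOf z) (C.1.idxOf z') (C.1.idxOf p) then sg p
        else 0 := by
      rw [List.sum_toFinset _ hL]
    refine f2.trans (Eq.trans ?_ (f1.symm.trans h0))
    have f3 : ∀ p ∈ L.toFinset, (if btw (C.1.idxOf z) (C.1.idxOf z') (C.1.idxOf p) then sg p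
        else 0) = if p ∈ M then fg cmp g p else 0 := by
      intro p hp
      rw [List.mem_toFinset] at hp
      have n1 : p ≠ z := fun h => hLz (h ▸ hp)
      have n2 : p ≠ z' := fun h => hLz' (h ▸ hp)
      have := hMb p n1 n2
      unfold fg
      rw [if_pos (hLg p hp)]
      by_cases h : p ∈ M
      · rw [if_pos h, if_pos (this.1 h)]
      · rw [if_neg h, if_neg (fun h' => h (this.2 h'))]
    rw [Finset.sum_congr rfl f3, Finset.sum_ite, Finset.sum_const_zero, add_zero]
    refine Finset.sum_subset ?_ ?_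
    · intro p hp
      rw [Finset.mem_filter] at hp
      rw [List.mem_toFinset]
      exact hp.2
    · intro p hp hp'
      rw [List.mem_toFinset] at hp
      rw [Finset.mem_filter, not_and_or, List.mem_toFinset] at hp'
      unfold fg
      rw [if_neg]
      intro hpg
      have hpC := hMC p hp
      rcases hall p (mem_passes.2 ⟨C, hC, hpC⟩) hpg with h | h | h
      · have hnd' := hnd
        rw [e, List.nodup_append, List.nodup_cons, List.nodup_append, List.nodup_cons] at hnd'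
        obtain ⟨k1, ⟨k2, k3, ⟨k4, k5⟩, k6⟩, k7⟩ := hnd'
        rcases e2 with ⟨h3, h4⟩ | ⟨h3, h4⟩
        · exact k2 (by rw [h3, ← h]; simp [hp])
        · exact k6 p hp a' (by simp) (by rw [h, h4])
      · have hnd' := hnd
        rw [e, List.nodup_append, List.nodup_cons, List.nodup_append, List.nodup_cons] at hnd'
        obtain ⟨k1, ⟨k2, k3, ⟨k4, k5⟩, k6⟩, k7⟩ := hnd'
        rcases e2 with ⟨h3, h4⟩ | ⟨h3, h4⟩
        · exact k6 p hp a' (by simp) (by rw [h, h4])
        · exact k2 (by rw [h3, ← h]; simp [hp])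
      · rcases hp' with h' | h'
        · exact h' h
        · exact h' hp
  obtain ⟨A, B, e⟩ := List.append_of_mem hzC
  have hz' := hzC'
  rw [e] at hz'
  rcases List.mem_append.1 hz' with h | h
  · obtain ⟨A', M, rfl⟩ := List.append_of_mem h
    exact key z' z A' M B (by rw [e]; simp) hz.symm (Or.inr ⟨rfl, rfl⟩)
  · rcases List.mem_cons.1 h with h | h
    · exact absurd h hzz
    · obtain ⟨M, B', rfl⟩ := List.append_of_mem h
      exact key z z' A M B' e hz (Or.inl ⟨rfl, rfl⟩)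

end

end Pool.Agent.L0h30.EN
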