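import Pool.Agent.L0h30.EN.One

/-! Local matchings: components of the double set with at most three ends. -/

namespace Pool.Agent.L0h30.EN

open Pool.Agent.Y468.SR
open Pool.Agent.Y874.TP hiding S_REID S_REN S_THREE S_OUT S_CUT S_JUNC CStep CReid CM InvM InvC Inv3
open Pool.Agent.Y874.TP2
open Pool.Agent.Y874.TP2.T3
open Pool.Agent.R800.TP

/-- the overpassages of `D` lying on the component `g` of the double set -/
def NN (D : Code) (cmp : ℕ → ℕ) (g : ℕ) : List Pass :=
  (passes D).filter fun q => q.isOver && (cmp (colour q.crossing) == g)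

/-- at most three ends, and if three, then not all with the same sign -/
def Few (D : Code) (cmp : ℕ → ℕ) (g : ℕ) : Prop :=
  (NN D cmp g).length ≤ 2 ∨
    ((NN D cmp g).length = 3 ∧ ∃ q ∈ NN D cmp g, ∃ r ∈ NN D cmp g, q.isPos ≠ r.isPos)

/-- two double curves of the component `g` with interleaved ends -/
def Lk (D : Code) (cmp : ℕ → ℕ) (g : ℕ) : Prop :=
  ∃ C ∈ D, ∃ x ∈ C.1, ∃ x' ∈ C.1, ∃ y ∈ C.1, ∃ y' ∈ C.1, x' ≠ x ∧ kap x' = kap x ∧ y' ≠ y ∧
    kap y' = kap y ∧ colour x.crossing ≠ colour y.crossing ∧ cmp (colour x.crossing) = g ∧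
    cmp (colour y.crossing) = g ∧ ¬ns C.1 x x' y y'

/-- the overpassage at the crossing -/
def ov (p : Pass) : Pass := if p.isOver then p else p.mate

theorem ov_or (p : Pass) : p = ov p ∨ p = (ov p).mate := by
  unfold ov
  split_ifs
  · exact Or.inl rfl
  · right; rw [mate_mate']

theorem ov_over (p : Pass) : (ov p).isOver = true := by
  unfold ov
  split_ifs with h
  · exact h
  · show (!p.isOver) = true
    simp [h]

theorem ov_crossing (p : Pass) : (ov p).crossing = p.crossing := by
  unfold ov
  split_ifs <;> rfl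

variable {D : Code} {cmp : ℕ → ℕ} {g : ℕ}

theorem mem_NN {p : Pass} : p ∈ NN D cmp g ↔ p ∈ passes D ∧ p.isOver = true ∧
    cmp (colour p.crossing) = g := by
  unfold NN
  rw [List.mem_filter]
  simp

theorem ov_mem (hW : WF (passes D)) {p : Pass} (hp : p ∈ passes D) : ov p ∈ passes D := by
  unfold ov
  split_ifs
  · exact hp
  · exact hW.1 p hp

theorem ov_NN (hW : WF (passes D)) {p : Pass} (hp : p ∈ passes D)
    (hg : cmp (colour p.crossing) = g) : ov p ∈ NN D cmp g :=
  mem_NN.2 ⟨ov_mem hW hp, ov_over p, by rw [ov_crossing]; exact hg⟩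

theorem len_le {L : List Pass} (hL : L.Nodup) (h : ∀ p ∈ L, p ∈ NN D cmp g) :
    L.length ≤ (NN D cmp g).length :=
  (List.subperm_of_subset hL h).length_le

theorem perm_NN {L : List Pass} (hL : L.Nodup) (h : ∀ p ∈ L, p ∈ NN D cmp g)
    (hl : (NN D cmp g).length ≤ L.length) {p : Pass} (hp : p ∈ NN D cmp g) : p ∈ L :=
  ((List.subperm_of_subset hL h).perm_of_length_le hl).mem_iff.2 hp

theorem cross_inj (hW : WF (passes D)) {p q : Pass} (hp : p ∈ passes D) (hq : q ∈ passes D)
    (h1 : p.crossing = q.crossing) (h2 : p.isOver = q.isOver) : p = q :=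
  List.inj_on_of_nodup_map hW.2 hp hq (by simp [h1, h2])

/-- the positions between two letters of `W` are those of letters of `W` -/
theorem btw_mem {W : List Pass} {z z' p : Pass} (hz : z ∈ W) (hz' : z' ∈ W)
    (h : btw (W.idxOf z) (W.idxOf z') (W.idxOf p)) : p ∈ W := by
  by_contra hp
  have e3 : W.idxOf p = W.length := List.idxOf_eq_length_iff.2 hp
  have e4 := List.idxOf_lt_length_iff.2 hz
  have e5 := List.idxOf_lt_length_iff.2 hz'
  unfold btw at h
  omega

theorem bool_eo {b1 b2 b3 b4 : Prop} [Decidable b1] [Decidable b2] [Decidable b3] [Decidable b4]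
    {s : ℤ} (hs : s = 1 ∨ s = -1)
    (h : (if b1 then s else 0) + ((if b2 then -s else 0) + ((if b3 then -s else 0) +
      ((if b4 then - -s else 0) + 0))) = 0) (hor : ¬(b1 ↔ b2) ∨ ¬(b3 ↔ b4)) :
    ((b1 ↔ b3) ∧ (b2 ↔ b4)) ∧ ¬(b1 ↔ b2) := by
  rcases hs with rfl | rfl <;> split_ifs at h <;> simp_all

section
variable {Ts : List Tri} {m : ℕ → ℕ} (hn : (D.map Prod.snd).Nodup) (hI : InvB D Ts)
  (hW : WF (passes D))
  (hm : InvM (D ++ TC Ts) m) (hc : ∀ κ, ((passes D).map kap).count κ ≤ 2)
  (hg : ∀ T ∈ Ts, cmp (colour T.b₁) = cmp (colour T.a₁) ∧ cmp (colour T.c₁) = cmp (colour T.a₁))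

include hW hc in
theorem odd_cross {x x' : Pass} (hx : x ∈ passes D) (hx' : x' ∈ passes D) (h1 : x' ≠ x)
    (h2 : kap x' = kap x) (hk : colour x.crossing % 2 ≠ 0) : x'.crossing ≠ x.crossing :=
  (odd_case hW hc hx hx' h1 h2 hk).2.1

include hW hc in
theorem lk_oo {x x' y y' : Pass} (hx : x ∈ passes D) (hx' : x' ∈ passes D) (hy : y ∈ passes D)
    (hy' : y' ∈ passes D) (h1 : x' ≠ x) (h2 : kap x' = kap x) (h3 : y' ≠ y)
    (h4 : kap y' = kap y) (h5 : colour x.crossing ≠ colour y.crossing)
    (h6 : cmp (colour x.crossing) = g) (h7 : cmp (colour y.crossing) = g)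
    (hkx : colour x.crossing % 2 ≠ 0) (hky : colour y.crossing % 2 ≠ 0) :
    4 ≤ (NN D cmp g).length := by
  have e1 := odd_cross hW hc hx hx' h1 h2 hkx
  have e2 := odd_cross hW hc hy hy' h3 h4 hky
  have c1 := col_of_kap h2
  have c2 := col_of_kap h4
  have : [ov x, ov x', ov y, ov y'].length ≤ (NN D cmp g).length := by
    refine len_le ?_ ?_
    · simp only [List.nodup_cons, List.mem_cons, List.not_mem_nil, or_false, not_or,
        List.nodup_nil, not_false_eq_true, and_true]
      have key : ∀ p q : Pass, p.crossing ≠ q.crossing → ov p ≠ ov q := by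
        intro p q h h'
        apply h
        rw [← ov_crossing p, h', ov_crossing]
      have key2 : ∀ p q : Pass, colour p.crossing ≠ colour q.crossing → ov p ≠ ov q :=
        fun p q h => key p q fun h' => h (by rw [h'])
      exact ⟨⟨key _ _ (Ne.symm e1), key2 _ _ h5, key2 _ _ (by rw [c2]; exact h5)⟩,
        ⟨key2 _ _ (by rw [c1]; exact h5), key2 _ _ (by rw [c1, c2]; exact h5)⟩,
        key _ _ (Ne.symm e2)⟩
    · intro p hp
      simp only [List.mem_cons, List.not_mem_nil, or_false] at hp
      rcases hp with rfl | rfl | rfl | rfl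
      · exact ov_NN hW hx h6
      · exact ov_NN hW hx' (by rw [c1]; exact h6)
      · exact ov_NN hW hy h7
      · exact ov_NN hW hy' (by rw [c2]; exact h7)
  exact this

include hn hI hW hm hc hg

/-- a curve with a branch point interleaved with a curve without branch points -/
theorem lk_eo {C : List Pass × ℕ} (hC : C ∈ D) {z z' y y' : Pass} (hz : z ∈ C.1) (hz' : z' ∈ C.1)
    (hy : y ∈ C.1) (hy' : y' ∈ C.1) (h1 : z' ≠ z) (h2 : kap z' = kap z) (h3 : y' ≠ y)
    (h4 : kap y' = kap y) (h6 : cmp (colour z.crossing) = g) (h7 : cmp (colour y.crossing) = g)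
    (hkz : colour z.crossing % 2 = 0) (hky : colour y.crossing % 2 ≠ 0)
    (hlen : (NN D cmp g).length ≤ 3) (hns : ¬ns C.1 z z' y y') :
    Loc D (fun p => cmp (colour p.crossing) = g) id := by
  have hD : ∀ p ∈ C.1, p ∈ passes D := fun p hp => mem_passes.2 ⟨C, hC, hp⟩
  have hcol : colour z.crossing ≠ colour y.crossing := fun h => hky (by rw [← h]; exact hkz)
  have ez : z' = z.mate := by
    rcases only_two hc (hD z hz) (hD z' hz') (hW.1 z (hD z hz)) h1 h2 (kap_mate_even hkz) with h | h
    · exact absurd h (mate_ne z)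
    · exact h.symm
  have e2 := odd_cross hW hc (hD y hy) (hD y' hy') h3 h4 hky
  have c2 := col_of_kap h4
  have ho : y'.isOver = y.isOver := over_of_kap hky h4
  obtain ⟨-, hsy⟩ := old_mem hn hI hm hc hC hy (hD y' hy') h3 h4
  set X := ov y with hX
  set Y := ov y' with hY
  have Xo : X.isOver = true := ov_over y
  have Yo : Y.isOver = true := ov_over y'
  have Xc : X.crossing = y.crossing := ov_crossing y
  have Yc : Y.crossing = y'.crossing := ov_crossing y'
  have XD : X ∈ passes D := ov_mem hW (hD y hy)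
  have YD : Y ∈ passes D := ov_mem hW (hD y' hy')
  have hXY : X.crossing ≠ Y.crossing := by rw [Xc, Yc]; exact Ne.symm e2
  have kXY : kap Y = kap X := kap_same (by rw [Xc, Yc, c2]) (by rw [Xo, Yo])
  have kXY' : kap Y.mate = kap X.mate :=
    kap_same (by show colour Y.crossing = colour X.crossing; rw [Xc, Yc, c2])
      (by show (!Y.isOver) = (!X.isOver); rw [Xo, Yo])
  -- all ends
  have hzc : ∀ q : Pass, colour q.crossing = colour y.crossing → ov z ≠ q := by
    intro q hq h
    apply hcol
    rw [← ov_crossing z, h, hq]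
  have hL3 : [ov z, X, Y].Nodup := by
    simp only [List.nodup_cons, List.mem_cons, List.not_mem_nil, or_false, not_or,
      List.nodup_nil, not_false_eq_true, and_true]
    exact ⟨⟨hzc X (by rw [Xc]), hzc Y (by rw [Yc, c2])⟩, fun h => hXY (by rw [h])⟩
  have hsub : ∀ p ∈ [ov z, X, Y], p ∈ NN D cmp g := by
    intro p hp
    simp only [List.mem_cons, List.not_mem_nil, or_false] at hp
    rcases hp with rfl | rfl | rfl
    · exact ov_NN hW (hD z hz) h6
    · exact ov_NN hW (hD y hy) h7
    · exact ov_NN hW (hD y' hy') (by rw [c2]; exact h7)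
  have hall : ∀ p ∈ passes D, cmp (colour p.crossing) = g →
      p = z ∨ p = z' ∨ p ∈ [X, Y, X.mate, Y.mate] := by
    intro p hp hpg
    have h5 := perm_NN hL3 hsub hlen (ov_NN hW hp hpg)
    simp only [List.mem_cons, List.not_mem_nil, or_false] at h5 ⊢
    rcases h5 with h5 | h5 | h5
    · have h8 : p.crossing = z.crossing := by rw [← ov_crossing p, h5, ov_crossing]
      by_cases h9 : p.isOver = z.isOver
      · exact Or.inl (cross_inj hW hp (hD z hz) h8 h9)
      · right; left
        refine cross_inj hW hp (hD z' hz') (by rw [ez]; exact h8) ?_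
        rw [ez]
        show p.isOver = !z.isOver
        cases h10 : p.isOver <;> cases h11 : z.isOver <;> simp_all
    · rcases ov_or p with h | h
      · rw [h5] at h; exact Or.inr (Or.inr (Or.inl h))
      · rw [h5] at h; exact Or.inr (Or.inr (Or.inr (Or.inr (Or.inl h))))
    · rcases ov_or p with h | h
      · rw [h5] at h; exact Or.inr (Or.inr (Or.inr (Or.inl h)))
      · rw [h5] at h; exact Or.inr (Or.inr (Or.inr (Or.inr (Or.inr h))))
  have neX : ∀ q : Pass, colour q.crossing = colour y.crossing → z ≠ q ∧ z' ≠ q := by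
    intro q hq
    refine ⟨fun h => hcol (by rw [h, hq]), fun h => hcol ?_⟩
    rw [← col_of_kap h2, h, hq]
  have cX : colour X.crossing = colour y.crossing := by rw [Xc]
  have cY : colour Y.crossing = colour y.crossing := by rw [Yc, c2]
  have ndL : [X, Y, X.mate, Y.mate].Nodup := by
    simp only [List.nodup_cons, List.mem_cons, List.not_mem_nil, or_false, not_or,
      List.nodup_nil, not_false_eq_true, and_true]
    refine ⟨⟨fun h => hXY (by rw [h]), (mate_ne X).symm, ?_⟩, ⟨?_, (mate_ne Y).symm⟩, ?_⟩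
    · intro h
      have := congrArg Pass.crossing h
      exact hXY this
    · intro h
      have := congrArg Pass.crossing h
      exact hXY this.symm
    · intro h
      have := congrArg Pass.crossing h
      exact hXY this
  have hidx := index hn hI hW hm hc hg hC hz hz' h1 h2 hkz h6 ndL
    (by
      intro h
      simp only [List.mem_cons, List.not_mem_nil, or_false] at h
      rcases h with h | h | h | h
      · exact (neX X cX).1 h
      · exact (neX Y cY).1 h
      · exact (neX X.mate cX).1 h
      · exact (neX Y.mate cY).1 h)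
    (by
      intro h
      simp only [List.mem_cons, List.not_mem_nil, or_false] at h
      rcases h with h | h | h | h
      · exact (neX X cX).2 h
      · exact (neX Y cY).2 h
      · exact (neX X.mate cX).2 h
      · exact (neX Y.mate cY).2 h)
    (by
      intro p hp
      simp only [List.mem_cons, List.not_mem_nil, or_false] at hp
      rcases hp with rfl | rfl | rfl | rfl
      · rw [cX]; exact h7
      · rw [cY]; exact h7
      · show cmp (colour X.crossing) = g; rw [cX]; exact h7
      · show cmp (colour Y.crossing) = g; rw [cY]; exact h7)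
    hall
  have hsXY : sg Y = -sg X := by
    by_cases hyo : y.isOver = true
    · have e5 : X = y := by rw [hX]; unfold ov; rw [if_pos hyo]
      have e6 : Y = y' := by rw [hY]; unfold ov; rw [if_pos (by rw [ho]; exact hyo)]
      rw [e5, e6]; exact hsy
    · have e5 : X = y.mate := by rw [hX]; unfold ov; rw [if_neg hyo]
      have e6 : Y = y'.mate := by rw [hY]; unfold ov; rw [if_neg (by rw [ho]; exact hyo)]
      rw [e5, e6, sg_mate, sg_mate, hsy]
  simp only [List.map_cons, List.map_nil, List.sum_cons, List.sum_nil, sg_mate, hsXY] at hidx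
  set i := C.1.idxOf z with hi
  set j := C.1.idxOf z' with hj
  -- which of the ends lie in the component
  have hor : (X ∈ C.1 ∧ Y ∈ C.1 ∧ ¬(btw i j (C.1.idxOf X) ↔ btw i j (C.1.idxOf Y))) ∨
      (X.mate ∈ C.1 ∧ Y.mate ∈ C.1 ∧
        ¬(btw i j (C.1.idxOf X.mate) ↔ btw i j (C.1.idxOf Y.mate))) := by
    by_cases hyo : y.isOver = true
    · left
      have e5 : X = y := by rw [hX]; unfold ov; rw [if_pos hyo]
      have e6 : Y = y' := by rw [hY]; unfold ov; rw [if_pos (by rw [ho]; exact hyo)]
      rw [e5, e6]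
      exact ⟨hy, hy', hns⟩
    · right
      have e5 : X = y.mate := by rw [hX]; unfold ov; rw [if_neg hyo]
      have e6 : Y = y'.mate := by rw [hY]; unfold ov; rw [if_neg (by rw [ho]; exact hyo)]
      rw [e5, e6, mate_mate', mate_mate']
      exact ⟨hy, hy', hns⟩
  have hbool := bool_eo (sg_one X) hidx (by
    rcases hor with ⟨-, -, h⟩ | ⟨-, -, h⟩
    · exact Or.inl h
    · exact Or.inr h)
  obtain ⟨⟨b1, b2⟩, b3⟩ := hbool
  have hXm : X ∈ C.1 ∧ Y ∈ C.1 ∧ X.mate ∈ C.1 ∧ Y.mate ∈ C.1 := by
    have hne1 : Y ≠ X := fun h => hXY (by rw [h])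
    have hne2 : Y.mate ≠ X.mate := fun h => hXY (by
      have := congrArg Pass.crossing h
      exact this.symm)
    rcases hor with ⟨m1, m2, -⟩ | ⟨m1, m2, -⟩
    · refine ⟨m1, m2, ?_⟩
      by_cases b4 : btw i j (C.1.idxOf X)
      · have m3 := btw_mem hz hz' (b1.1 b4)
        exact ⟨m3, (old_mem hn hI hm hc hC m3 (hW.1 Y YD) hne2 kXY').1⟩
      · have b5 : btw i j (C.1.idxOf Y) := by
          by_contra b5
          exact b3 ⟨fun h => absurd h b4, fun h => absurd h b5⟩
        have m3 := btw_mem hz hz' (b2.1 b5)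
        exact ⟨(old_mem hn hI hm hc hC m3 (hW.1 X XD) (Ne.symm hne2) kXY'.symm).1, m3⟩
    · by_cases b4 : btw i j (C.1.idxOf X)
      · have m3 := btw_mem hz hz' b4
        exact ⟨m3, (old_mem hn hI hm hc hC m3 YD hne1 kXY).1, m1, m2⟩
      · have b5 : btw i j (C.1.idxOf Y) := by
          by_contra b5
          exact b3 ⟨fun h => absurd h b4, fun h => absurd h b5⟩
        have m3 := btw_mem hz hz' b5
        exact ⟨(old_mem hn hI hm hc hC m3 XD (Ne.symm hne1) kXY.symm).1, m3, m1, m2⟩
  obtain ⟨m1, m2, m3, m4⟩ := hXm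
  refine loc6 hW hC (a := X) (b := Y) (c := X.mate) (d := Y.mate) (e := z) (f := z') ?_ ?_ ?_ ?_ ?_
    ?_ ?_ kXY kXY' h2 b1 b2 b3
  · simp only [List.nodup_cons, List.mem_cons, List.not_mem_nil, or_false, not_or,
      List.nodup_nil, not_false_eq_true, and_true] at ndL ⊢
    obtain ⟨⟨l1, l2, l3⟩, ⟨l4, l5⟩, l6⟩ := ndL
    exact ⟨⟨l1, l2, l3, Ne.symm (neX X cX).1, Ne.symm (neX X cX).2⟩,
      ⟨l4, l5, Ne.symm (neX Y cY).1, Ne.symm (neX Y cY).2⟩,
      ⟨l6, Ne.symm (neX X.mate cX).1, Ne.symm (neX X.mate cX).2⟩,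
      ⟨Ne.symm (neX Y.mate cY).1, Ne.symm (neX Y.mate cY).2⟩, Ne.symm h1⟩
  · intro p hp
    simp only [List.mem_cons, List.not_mem_nil, or_false] at hp
    rcases hp with rfl | rfl | rfl | rfl | rfl | rfl
    · exact m1
    · exact m2
    · exact m3
    · exact m4
    · exact hz
    · exact hz'
  · intro p hp
    constructor
    · intro hpg
      rcases hall p hp hpg with h | h | h
      · simp [h]
      · simp [h]
      · simp only [List.mem_cons, List.not_mem_nil, or_false] at h ⊢
        rcases h with h | h | h | h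
        · exact Or.inl h
        · exact Or.inr (Or.inl h)
        · exact Or.inr (Or.inr (Or.inl h))
        · exact Or.inr (Or.inr (Or.inr (Or.inl h)))
    · intro hpL
      simp only [List.mem_cons, List.not_mem_nil, or_false] at hpL
      rcases hpL with rfl | rfl | rfl | rfl | rfl | rfl
      · rw [cX]; exact h7
      · rw [cY]; exact h7
      · show cmp (colour X.crossing) = g; rw [cX]; exact h7
      · show cmp (colour Y.crossing) = g; rw [cY]; exact h7
      · exact h6
      · rw [col_of_kap h2]; exact h6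
  · exact ⟨part_id X, by rw [part_id, mate_mate']⟩
  · exact ⟨part_id Y, by rw [part_id, mate_mate']⟩
  · exact ⟨by rw [part_id, ez], by rw [part_id, ez, mate_mate']⟩
  · intro p _; rfl

end

end Pool.Agent.L0h30.EN
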