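import Pool.Agent.L0h30.EN.Pos

/-! Local matchings. -/

namespace Pool.Agent.L0h30.EN

open Pool.Agent.Y468.SR
open Pool.Agent.Y874.TP hiding S_REID S_REN S_THREE S_OUT S_CUT S_JUNC CStep CReid CM InvM InvC Inv3
open Pool.Agent.Y874.TP2
open Pool.Agent.Y874.TP2.T3
open Pool.Agent.R800.TP

/-- a matching `n` of the crossings of the passages in the class `P` -/
structure Loc (D : Code) (P : Pass → Prop) (n : ℕ → ℕ) : Prop where
  mem : ∀ C ∈ D, ∀ p ∈ C.1, P p → part n p ∈ C.1 ∧ P (part n p)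
  inv : ∀ p ∈ passes D, P p → n (n p.crossing) = p.crossing
  nc : ∀ C ∈ D, ∀ x ∈ C.1, ∀ y ∈ C.1, P x → P y → y ≠ x → y ≠ part n x →
    ns C.1 x (part n x) y (part n y)
  hull : ∀ C ∈ D, ∀ x ∈ C.1, P x → ∀ t ∈ C.1, ∀ t' ∈ C.1, ¬P t → ¬P t' →
    (∀ a ∈ C.1, ∀ a' ∈ C.1, P a → a' ≠ a → kap a' = kap a → ns C.1 a a' t t') →
    ns C.1 x (part n x) t t'

theorem Loc.congr {D : Code} {P P' : Pass → Prop} {n : ℕ → ℕ} (h : Loc D P n)
    (hP : ∀ p, P p ↔ P' p) : Loc D P' n := by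
  have : P = P' := funext fun p => propext (hP p)
  rw [← this]; exact h

/-- matched pairs in one component -/
theorem loc_pairs {D : Code} (hW : WF (passes D)) {P : Pass → Prop} {n : ℕ → ℕ}
    {C₀ : List Pass × ℕ} (hC₀ : C₀ ∈ D) (S : List (Pass × Pass))
    (hmem : ∀ s ∈ S, s.1 ∈ C₀.1 ∧ s.2 ∈ C₀.1 ∧ P s.1 ∧ P s.2)
    (hall : ∀ p ∈ passes D, P p → ∃ s ∈ S, p = s.1 ∨ p = s.2)
    (hpart : ∀ s ∈ S, part n s.1 = s.2 ∧ part n s.2 = s.1)
    (hinv : ∀ s ∈ S, n (n s.1.crossing) = s.1.crossing ∧ n (n s.2.crossing) = s.2.crossing)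
    (hnc : ∀ s ∈ S, ∀ t ∈ S, s ≠ t → ns C₀.1 s.1 s.2 t.1 t.2)
    (hh : ∀ t ∈ C₀.1, ∀ t' ∈ C₀.1, ¬P t → ¬P t' →
      (∀ a ∈ C₀.1, ∀ a' ∈ C₀.1, P a → a' ≠ a → kap a' = kap a → ns C₀.1 a a' t t') →
      ∀ s ∈ S, ns C₀.1 s.1 s.2 t t') : Loc D P n := by
  have hCC : ∀ C ∈ D, ∀ p ∈ C.1, P p → C = C₀ := by
    intro C hC p hp hPp
    obtain ⟨s, hs, h⟩ := hall p (mem_passes.2 ⟨C, hC, hp⟩) hPp
    refine circ_unique hW hC₀ hC (p := p) ?_ hp
    rcases h with rfl | rfl
    · exact (hmem s hs).1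
    · exact (hmem s hs).2.1
  refine ⟨?_, ?_, ?_, ?_⟩
  · intro C hC p hp hPp
    have hCe := hCC C hC p hp hPp
    obtain ⟨s, hs, h⟩ := hall p (mem_passes.2 ⟨C, hC, hp⟩) hPp
    obtain ⟨h1, h2, h3, h4⟩ := hmem s hs
    obtain ⟨h5, h6⟩ := hpart s hs
    rw [hCe]
    rcases h with rfl | rfl
    · rw [h5]; exact ⟨h2, h4⟩
    · rw [h6]; exact ⟨h1, h3⟩
  · intro p hp hPp
    obtain ⟨s, hs, h⟩ := hall p hp hPp
    rcases h with rfl | rfl
    · exact (hinv s hs).1
    · exact (hinv s hs).2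
  · intro C hC x hx y hy hPx hPy hyx hyx'
    have hCe := hCC C hC x hx hPx
    obtain ⟨s, hs, h⟩ := hall x (mem_passes.2 ⟨C, hC, hx⟩) hPx
    obtain ⟨t, ht, h'⟩ := hall y (mem_passes.2 ⟨C, hC, hy⟩) hPy
    obtain ⟨h5, h6⟩ := hpart s hs
    obtain ⟨h7, h8⟩ := hpart t ht
    have hst : s ≠ t := by
      rintro rfl
      rcases h with rfl | rfl <;> rcases h' with rfl | rfl
      · exact hyx rfl
      · exact hyx' h5.symm
      · exact hyx' h6.symm
      · exact hyx rfl
    have h9 := hnc s hs t ht hst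
    rw [hCe]
    rcases h with rfl | rfl <;> rcases h' with rfl | rfl
    · rw [h5, h7]; exact h9
    · rw [h5, h8]; exact ns_swap'.1 h9
    · rw [h6, h7]; exact ns_swap.1 h9
    · rw [h6, h8]; exact ns_swap'.1 (ns_swap.1 h9)
  · intro C hC x hx hPx t ht t' ht' hPt hPt' hold
    have hCe := hCC C hC x hx hPx
    subst hCe
    obtain ⟨s, hs, h⟩ := hall x (mem_passes.2 ⟨C, hC, hx⟩) hPx
    obtain ⟨h5, h6⟩ := hpart s hs
    have := hh t ht t' ht' hPt hPt' hold s hs
    rcases h with rfl | rfl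
    · rw [h5]; exact this
    · rw [h6]; exact ns_swap.1 this

theorem idx_nodup {W L : List Pass} (hL : L.Nodup) (h : ∀ p ∈ L, p ∈ W) :
    (L.map W.idxOf).Nodup :=
  hL.map_on fun x hx _ _ e => (List.idxOf_inj (h x hx)).1 e

theorem idx_notMem {W L : List Pass} (h : ∀ p ∈ L, p ∈ W) {t : Pass} (ht' : t ∉ L) :
    W.idxOf t ∉ L.map W.idxOf := by
  intro hm
  obtain ⟨p, hp, e⟩ := List.mem_map.1 hm
  exact ht' ((List.idxOf_inj (h p hp)).1 e ▸ hp)

/-- four ends -/
theorem loc4 {D : Code} (hW : WF (passes D)) {P : Pass → Prop} {n : ℕ → ℕ}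
    {C₀ : List Pass × ℕ} (hC₀ : C₀ ∈ D) {a b c d : Pass} (nd : [a, b, c, d].Nodup)
    (hmem : ∀ p ∈ [a, b, c, d], p ∈ C₀.1)
    (hall : ∀ p ∈ passes D, P p ↔ p ∈ [a, b, c, d])
    (h1 : part n a = c ∧ part n c = a) (h2 : part n b = d ∧ part n d = b)
    (hinv : ∀ p ∈ [a, b, c, d], n (n p.crossing) = p.crossing)
    (k1 : kap b = kap a) (k2 : kap d = kap c) (hx : ¬ns C₀.1 a b c d) : Loc D P n := by
  have hD : ∀ p ∈ C₀.1, p ∈ passes D := fun p hp => mem_passes.2 ⟨C₀, hC₀, hp⟩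
  have ma := hmem a (by simp)
  have mb := hmem b (by simp)
  have mc := hmem c (by simp)
  have md := hmem d (by simp)
  have Pa := (hall a (hD a ma)).2 (by simp)
  have Pb := (hall b (hD b mb)).2 (by simp)
  have Pc := (hall c (hD c mc)).2 (by simp)
  have Pd := (hall d (hD d md)).2 (by simp)
  have nd' := idx_nodup nd hmem
  obtain ⟨r1, r2⟩ := p1 nd' hx
  have nd2 := nd
  simp only [List.nodup_cons, List.mem_cons, List.not_mem_nil, or_false, not_or, List.nodup_nil,
    not_false_eq_true, and_true] at nd2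
  refine loc_pairs hW hC₀ [(a, c), (b, d)] ?_ ?_ ?_ ?_ ?_ ?_
  · intro s hs
    simp only [List.mem_cons, List.not_mem_nil, or_false] at hs
    rcases hs with rfl | rfl
    · exact ⟨ma, mc, Pa, Pc⟩
    · exact ⟨mb, md, Pb, Pd⟩
  · intro p hp hPp
    have := (hall p hp).1 hPp
    simp only [List.mem_cons, List.not_mem_nil, or_false] at this
    rcases this with rfl | rfl | rfl | rfl
    · exact ⟨(p, c), by simp, Or.inl rfl⟩
    · exact ⟨(p, d), by simp, Or.inl rfl⟩
    · exact ⟨(a, p), by simp, Or.inr rfl⟩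
    · exact ⟨(b, p), by simp, Or.inr rfl⟩
  · intro s hs
    simp only [List.mem_cons, List.not_mem_nil, or_false] at hs
    rcases hs with rfl | rfl
    · exact h1
    · exact h2
  · intro s hs
    simp only [List.mem_cons, List.not_mem_nil, or_false] at hs
    rcases hs with rfl | rfl
    · exact ⟨hinv a (by simp), hinv c (by simp)⟩
    · exact ⟨hinv b (by simp), hinv d (by simp)⟩
  · intro s hs t ht hst
    simp only [List.mem_cons, List.not_mem_nil, or_false] at hs ht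
    rcases hs with rfl | rfl <;> rcases ht with rfl | rfl
    · exact absurd rfl hst
    · exact r1
    · exact r2
    · exact absurd rfl hst
  · intro t ht t' ht' hPt hPt' hold s hs
    have n1 := idx_notMem hmem (t := t) (fun h => hPt ((hall t (hD t ht)).2 h))
    have n2 := idx_notMem hmem (t := t') (fun h => hPt' ((hall t' (hD t' ht')).2 h))
    have o1 := hold a ma b mb Pa (Ne.symm nd2.1.1) k1
    have o2 := hold c mc d md Pc (fun h => nd2.2.2 h.symm) k2
    obtain ⟨q1, q2⟩ := p2 nd' n1 n2 hx o1 o2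
    simp only [List.mem_cons, List.not_mem_nil, or_false] at hs
    rcases hs with rfl | rfl
    · exact q1
    · exact q2

/-- six ends -/
theorem loc6 {D : Code} (hW : WF (passes D)) {P : Pass → Prop} {n : ℕ → ℕ}
    {C₀ : List Pass × ℕ} (hC₀ : C₀ ∈ D) {a b c d e f : Pass} (nd : [a, b, c, d, e, f].Nodup)
    (hmem : ∀ p ∈ [a, b, c, d, e, f], p ∈ C₀.1)
    (hall : ∀ p ∈ passes D, P p ↔ p ∈ [a, b, c, d, e, f])
    (h1 : part n a = c ∧ part n c = a) (h2 : part n b = d ∧ part n d = b)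
    (h3 : part n e = f ∧ part n f = e)
    (hinv : ∀ p ∈ [a, b, c, d, e, f], n (n p.crossing) = p.crossing)
    (k1 : kap b = kap a) (k2 : kap d = kap c) (k3 : kap f = kap e) (x1 : ns C₀.1 e f a c)
    (x2 : ns C₀.1 e f b d) (x3 : ¬ns C₀.1 e f a b) : Loc D P n := by
  have hD : ∀ p ∈ C₀.1, p ∈ passes D := fun p hp => mem_passes.2 ⟨C₀, hC₀, hp⟩
  have ma := hmem a (by simp)
  have mb := hmem b (by simp)
  have mc := hmem c (by simp)
  have md := hmem d (by simp)
  have me := hmem e (by simp)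
  have mf := hmem f (by simp)
  have Pa := (hall a (hD a ma)).2 (by simp)
  have Pb := (hall b (hD b mb)).2 (by simp)
  have Pc := (hall c (hD c mc)).2 (by simp)
  have Pd := (hall d (hD d md)).2 (by simp)
  have Pe := (hall e (hD e me)).2 (by simp)
  have Pf := (hall f (hD f mf)).2 (by simp)
  have nd' := idx_nodup nd hmem
  obtain ⟨r1, r2, r3, r4⟩ := p3 nd' x1 x2 x3
  have nd2 := nd
  simp only [List.nodup_cons, List.mem_cons, List.not_mem_nil, or_false, not_or, List.nodup_nil,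
    not_false_eq_true, and_true] at nd2
  refine loc_pairs hW hC₀ [(a, c), (b, d), (e, f)] ?_ ?_ ?_ ?_ ?_ ?_
  · intro s hs
    simp only [List.mem_cons, List.not_mem_nil, or_false] at hs
    rcases hs with rfl | rfl | rfl
    · exact ⟨ma, mc, Pa, Pc⟩
    · exact ⟨mb, md, Pb, Pd⟩
    · exact ⟨me, mf, Pe, Pf⟩
  · intro p hp hPp
    have := (hall p hp).1 hPp
    simp only [List.mem_cons, List.not_mem_nil, or_false] at this
    rcases this with rfl | rfl | rfl | rfl | rfl | rfl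
    · exact ⟨(p, c), by simp, Or.inl rfl⟩
    · exact ⟨(p, d), by simp, Or.inl rfl⟩
    · exact ⟨(a, p), by simp, Or.inr rfl⟩
    · exact ⟨(b, p), by simp, Or.inr rfl⟩
    · exact ⟨(p, f), by simp, Or.inl rfl⟩
    · exact ⟨(e, p), by simp, Or.inr rfl⟩
  · intro s hs
    simp only [List.mem_cons, List.not_mem_nil, or_false] at hs
    rcases hs with rfl | rfl | rfl
    · exact h1
    · exact h2
    · exact h3
  · intro s hs
    simp only [List.mem_cons, List.not_mem_nil, or_false] at hs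
    rcases hs with rfl | rfl | rfl
    · exact ⟨hinv a (by simp), hinv c (by simp)⟩
    · exact ⟨hinv b (by simp), hinv d (by simp)⟩
    · exact ⟨hinv e (by simp), hinv f (by simp)⟩
  · intro s hs t ht hst
    simp only [List.mem_cons, List.not_mem_nil, or_false] at hs ht
    rcases hs with rfl | rfl | rfl <;> rcases ht with rfl | rfl | rfl
    · exact absurd rfl hst
    · exact r1
    · exact r2
    · exact r3
    · exact absurd rfl hst
    · exact r4
    · exact x1
    · exact x2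
    · exact absurd rfl hst
  · intro t ht t' ht' hPt hPt' hold s hs
    have n1 := idx_notMem hmem (t := t) (fun h => hPt ((hall t (hD t ht)).2 h))
    have n2 := idx_notMem hmem (t := t') (fun h => hPt' ((hall t' (hD t' ht')).2 h))
    have o1 := hold a ma b mb Pa (Ne.symm nd2.1.1) k1
    have o2 := hold c mc d md Pc (Ne.symm nd2.2.2.1.1) k2
    have o3 := hold e me f mf Pe (Ne.symm nd2.2.2.2.2) k3
    obtain ⟨q1, q2⟩ := p4' nd' n1 n2 x1 x2 x3 o1 o2 o3
    simp only [List.mem_cons, List.not_mem_nil, or_false] at hs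
    rcases hs with rfl | rfl | rfl
    · exact q1
    · exact q2
    · exact o3

end Pool.Agent.L0h30.EN
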