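import Pool.Agent.R800.TP.EvenC

/-! Noncrossing matchings of the letters of a word. -/

namespace Pool.Agent.L0h30.EN

open Pool.Agent.Y468.SR

/-- `t` lies strictly between `a` and `b` -/
def btw (a b t : ℕ) : Prop := (a < t ∧ t < b) ∨ (b < t ∧ t < a)

/-- the letters `x`, `x'` do not separate `y` from `y'` in the word `W` -/
def ns {α : Type} [DecidableEq α] (W : List α) (x x' y y' : α) : Prop :=
  btw (W.idxOf x) (W.idxOf x') (W.idxOf y) ↔ btw (W.idxOf x) (W.idxOf x') (W.idxOf y')

section
variable {α : Type} [DecidableEq α]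

theorem idx_split {A M B : List α} {x x' : α} (h : (A ++ x :: (M ++ x' :: B)).Nodup) :
    (A ++ x :: (M ++ x' :: B)).idxOf x = A.length ∧
    (A ++ x :: (M ++ x' :: B)).idxOf x' = A.length + 1 + M.length ∧
    ∀ y ∈ A ++ x :: (M ++ x' :: B), y ≠ x → y ≠ x' →
      (y ∈ M ↔ btw ((A ++ x :: (M ++ x' :: B)).idxOf x) ((A ++ x :: (M ++ x' :: B)).idxOf x')
        ((A ++ x :: (M ++ x' :: B)).idxOf y)) := by
  have hn := h
  rw [List.nodup_append, List.nodup_cons, List.nodup_append, List.nodup_cons] at hn
  obtain ⟨h1, ⟨h2, h3, ⟨h4, h5⟩, h6⟩, h7⟩ := hn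
  have hxA : x ∉ A := fun hx => h7 x hx x (by simp) rfl
  have hx'A : x' ∉ A := fun hx => h7 x' hx x' (by simp) rfl
  have hx'M : x' ∉ M := fun hx => h6 x' hx x' (by simp) rfl
  have hxM : x ∉ M := fun hx => h2 (by simp [hx])
  have hne : x ≠ x' := fun e => h2 (by simp [e])
  have e1 : (A ++ x :: (M ++ x' :: B)).idxOf x = A.length := by
    rw [List.idxOf_append_of_notMem hxA, List.idxOf_cons_self, add_zero]
  have e2 : (A ++ x :: (M ++ x' :: B)).idxOf x' = A.length + 1 + M.length := by
    rw [List.idxOf_append_of_notMem hx'A, List.idxOf_cons_ne _ hne,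
      List.idxOf_append_of_notMem hx'M, List.idxOf_cons_self]
    omega
  refine ⟨e1, e2, fun y hy hyx hyx' => ?_⟩
  rw [e1, e2]
  constructor
  · intro hyM
    have hyA : y ∉ A := fun hy => h7 y hy y (by simp [hyM]) rfl
    have e3 : (A ++ x :: (M ++ x' :: B)).idxOf y = A.length + 1 + M.idxOf y := by
      rw [List.idxOf_append_of_notMem hyA, List.idxOf_cons_ne _ (Ne.symm hyx),
        List.idxOf_append_of_mem hyM]
      omega
    have := List.idxOf_lt_length_iff.2 hyM
    rw [e3]
    left
    omega
  · intro hb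
    by_contra hyM
    rcases List.mem_append.1 hy with hy | hy
    · have e3 : (A ++ x :: (M ++ x' :: B)).idxOf y = A.idxOf y := List.idxOf_append_of_mem hy
      have := List.idxOf_lt_length_iff.2 hy
      rw [e3] at hb
      unfold btw at hb
      omega
    · rcases List.mem_cons.1 hy with hy | hy
      · exact hyx hy
      · rcases List.mem_append.1 hy with hy | hy
        · exact hyM hy
        · rcases List.mem_cons.1 hy with hy | hy
          · exact hyx' hy
          · have hyA : y ∉ A := fun hy' => h7 y hy' y (by simp [hy]) rfl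
            have e3 : (A ++ x :: (M ++ x' :: B)).idxOf y = A.length + 1 + M.length + 1 +
                B.idxOf y := by
              rw [List.idxOf_append_of_notMem hyA, List.idxOf_cons_ne _ (Ne.symm hyx),
                List.idxOf_append_of_notMem hyM, List.idxOf_cons_ne _ (Ne.symm hyx')]
              omega
            rw [e3] at hb
            unfold btw at hb
            omega

/-- the product of a word whose letters are matched without crossings, matched letters having inverse
values -/
theorem prod_ncm {G : Type} [Group G] (v : α → G) (pt : α → α) : ∀ (n : ℕ) (W : List α),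
    W.length ≤ n → W.Nodup → (∀ x ∈ W, pt x ∈ W ∧ pt x ≠ x ∧ pt (pt x) = x ∧ v (pt x) = (v x)⁻¹) →
    (∀ A x M B, W = A ++ x :: (M ++ pt x :: B) → ∀ y ∈ M, pt y ∈ M) → (W.map v).prod = 1 := by
  intro n
  induction n with
  | zero =>
    intro W hW _ _ _
    have : W = [] := List.eq_nil_of_length_eq_zero (by omega)
    rw [this]; rfl
  | succ n ih =>
    intro W hW hnd hp hc
    rcases W with _ | ⟨x, W⟩
    · rfl
    · obtain ⟨p1, p2, p3, p4⟩ := hp x (by simp)
      have p5 : pt x ∈ W := (List.mem_cons.1 p1).resolve_left p2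
      obtain ⟨M, B, rfl⟩ := List.append_of_mem p5
      have hM := hc [] x M B rfl
      have hnn := hnd
      rw [List.nodup_cons, List.nodup_append, List.nodup_cons] at hnn
      obtain ⟨h2, h3, ⟨h4, h5⟩, h6⟩ := hnn
      have hxM : x ∉ M := fun hx => h2 (by simp [hx])
      have hxB : x ∉ B := fun hx => h2 (by simp [hx])
      have hptM : pt x ∉ M := fun hx => h6 _ hx _ (by simp) rfl
      have hB : ∀ y ∈ B, pt y ∈ B := by
        intro y hy
        obtain ⟨q1, q2, q3, q4⟩ := hp y (by simp [hy])
        rcases List.mem_cons.1 q1 with q | q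
        · have : y = pt x := by rw [← q, q3]
          exact absurd (this ▸ hy) h4
        · rcases List.mem_append.1 q with q | q
          · have := hM _ q
            rw [q3] at this
            exact absurd rfl (h6 y this y (by simp [hy]))
          · rcases List.mem_cons.1 q with q | q
            · have : y = x := by rw [← q3, q, p3]
              exact absurd (this ▸ hy) hxB
            · exact q
      have l : M.length + B.length + 2 ≤ n + 1 := by
        simp only [List.length_cons, List.length_append] at hW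
        omega
      have pM := ih M (by omega) h3 (fun y hy => by
        obtain ⟨-, q2, q3, q4⟩ := hp y (by simp [hy])
        exact ⟨hM y hy, q2, q3, q4⟩) (fun A y M' B' e => by
        refine hc (x :: A) y M' (B' ++ pt x :: B) ?_
        rw [e]; simp)
      have pB := ih B (by omega) h5 (fun y hy => by
        obtain ⟨-, q2, q3, q4⟩ := hp y (by simp [hy])
        exact ⟨hB y hy, q2, q3, q4⟩) (fun A y M' B' e => by
        refine hc (x :: (M ++ pt x :: A)) y M' B' ?_
        rw [e]; simp)
      rw [List.map_cons, List.prod_cons, List.map_append, List.prod_append, List.map_cons,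
        List.prod_cons, pM, pB, p4]
      simp

/-- the same in terms of positions -/
theorem prod_ns {G : Type} [Group G] (v : α → G) (pt : α → α) (W : List α) (hnd : W.Nodup)
    (hp : ∀ x ∈ W, pt x ∈ W ∧ pt x ≠ x ∧ pt (pt x) = x ∧ v (pt x) = (v x)⁻¹)
    (hc : ∀ x ∈ W, ∀ y ∈ W, y ≠ x → y ≠ pt x → ns W x (pt x) y (pt y)) :
    (W.map v).prod = 1 := by
  refine prod_ncm v pt W.length W le_rfl hnd hp fun A x M B hW y hy => ?_
  have hx : x ∈ W := by rw [hW]; simp
  have hyW : y ∈ W := by rw [hW]; simp [hy]
  have hnd' := hnd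
  rw [hW] at hnd'
  have hn := hnd'
  rw [List.nodup_append, List.nodup_cons, List.nodup_append, List.nodup_cons] at hn
  obtain ⟨h1, ⟨h2, h3, ⟨h4, h5⟩, h6⟩, h7⟩ := hn
  have n1 : y ≠ x := fun e => h2 (by simp [← e, hy])
  have n2 : y ≠ pt x := fun e => h6 _ hy _ (by simp) e
  obtain ⟨e1, e2, e3⟩ := idx_split hnd'
  have hn1 := hc x hx y hyW n1 n2
  obtain ⟨q1, q2, q3, q4⟩ := hp y hyW
  have n3 : pt y ≠ x := fun e => n2 (by rw [← e, q3])
  have n4 : pt y ≠ pt x := by
    intro e
    apply n1
    rw [← q3, e, (hp x hx).2.2.1]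
  unfold ns at hn1
  rw [hW] at hn1 q1 hyW
  rw [← e3 y hyW n1 n2, ← e3 (pt y) q1 n3 n4] at hn1
  exact hn1.1 hy

end

end Pool.Agent.L0h30.EN
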