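import Pool.Agent.L0h30.EN.Ncm

/-! The pairs of ends of the curves of the preimage. -/

namespace Pool.Agent.L0h30.EN

open Pool.Agent.Y468.SR
open Pool.Agent.Y874.TP hiding S_REID S_REN S_THREE S_OUT S_CUT S_JUNC CStep CReid CM InvM InvC Inv3
open Pool.Agent.Y874.TP2
open Pool.Agent.Y874.TP2.T3
open Pool.Agent.R800.TP

instance (a b t : ℕ) : Decidable (btw a b t) := by unfold btw; infer_instance

theorem btw_swap {a b t : ℕ} : btw a b t ↔ btw b a t := by unfold btw; omega

theorem ns_swap {α : Type} [DecidableEq α] {W : List α} {x x' y y' : α} :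
    ns W x x' y y' ↔ ns W x' x y y' := by
  unfold ns btw; omega

theorem ns_swap' {α : Type} [DecidableEq α] {W : List α} {x x' y y' : α} :
    ns W x x' y y' ↔ ns W x x' y' y := by
  unfold ns; exact Iff.comm

theorem ns_symm {α : Type} [DecidableEq α] {W : List α} {x x' y y' : α} (hx : x ∈ W) (hx' : x' ∈ W)
    (hy : y ∈ W) (hy' : y' ∈ W) (h1 : x ≠ y) (h2 : x ≠ y') (h3 : x' ≠ y) (h4 : x' ≠ y')
    (h : ns W x x' y y') : ns W y y' x x' := by
  have i1 : W.idxOf x ≠ W.idxOf y := fun e => h1 ((List.idxOf_inj hx).1 e)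
  have i2 : W.idxOf x ≠ W.idxOf y' := fun e => h2 ((List.idxOf_inj hx).1 e)
  have i3 : W.idxOf x' ≠ W.idxOf y := fun e => h3 ((List.idxOf_inj hx').1 e)
  have i4 : W.idxOf x' ≠ W.idxOf y' := fun e => h4 ((List.idxOf_inj hx').1 e)
  unfold ns btw at *
  omega

/-- a passage lies in one component -/
theorem circ_unique {D : Code} (hW : WF (passes D)) {C C' : List Pass × ℕ} (hC : C ∈ D)
    (hC' : C' ∈ D) {p : Pass} (hp : p ∈ C.1) (hp' : p ∈ C'.1) : C' = C := by
  have hnd := WF.nodup hW
  obtain ⟨D₁, D₂, rfl⟩ := List.append_of_mem hC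
  rw [passes_append', passes_cons] at hnd
  rcases List.mem_append.1 hC' with h | h
  · exact absurd rfl ((List.nodup_append.1 hnd).2.2 p (mem_passes.2 ⟨C', h, hp'⟩) p
      (List.mem_append_left _ hp))
  · rcases List.mem_cons.1 h with h | h
    · exact h
    · exact absurd rfl ((List.nodup_append.1 (List.nodup_append.1 hnd).2.1).2.2 p hp p
        (mem_passes.2 ⟨C', h, hp'⟩))

theorem circ_nodup {D : Code} (hW : WF (passes D)) {C : List Pass × ℕ} (hC : C ∈ D) : C.1.Nodup := by
  obtain ⟨D₁, D₂, rfl⟩ := List.append_of_mem hC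
  have := WF.nodup hW
  simp only [passes, List.flatMap_append, List.flatMap_cons] at this
  exact (List.nodup_append.1 (List.nodup_append.1 this).2.1).1

theorem count_one {M : List Pass} {κ : ℕ × Bool} {y : Pass} (hM : M.Nodup) (hy : y ∈ M)
    (h1 : kap y = κ) (h2 : ∀ z ∈ M, kap z = κ → z = y) : (M.map kap).count κ = 1 := by
  obtain ⟨A, B, rfl⟩ := List.append_of_mem hy
  rw [List.nodup_append, List.nodup_cons] at hM
  obtain ⟨k1, ⟨k2, k3⟩, k4⟩ := hM
  have hA : (A.map kap).count κ = 0 := count_zero fun z hz h => by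
    have := h2 z (by simp [hz]) h
    exact k4 z hz y (by simp) this
  have hB : (B.map kap).count κ = 0 := count_zero fun z hz h => by
    have := h2 z (by simp [hz]) h
    exact k2 (this ▸ hz)
  rw [List.map_append, List.map_cons, List.count_append, hA, h1, List.count_cons_self, hB]

section
variable {D : Code} {Ts : List Tri} {m : ℕ → ℕ} (hn : (D.map Prod.snd).Nodup) (hI : InvB D Ts)
  (hW : WF (passes D))
  (hm : InvM (D ++ TC Ts) m) (hc : ∀ κ, ((passes D).map kap).count κ ≤ 2)

include hc in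
theorem only_two {p q r : Pass} (hp : p ∈ passes D) (hq : q ∈ passes D) (hr : r ∈ passes D)
    (h1 : q ≠ p) (h2 : kap q = kap p) (h3 : kap r = kap p) : r = p ∨ r = q := by
  by_contra h
  rw [not_or] at h
  have := three_le hr hp hq h3 rfl h2 h.1 h.2 (Ne.symm h1)
  have := hc (kap p)
  omega

include hn hI hm hc

theorem old_ex {C : List Pass × ℕ} (hC : C ∈ D) {p : Pass} (hpC : p ∈ C.1) :
    ∃ q ∈ C.1, q ≠ p ∧ kap q = kap p ∧ sg q = -sg p := by
  have h1 : (C.1.map kap).count (kap p) ≠ 0 := by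
    intro h
    exact of_count_zero h p hpC rfl
  obtain ⟨A, x, B, hAB, hx, hA⟩ := split_one h1
  have h2 := zero_or_two hn hI hm hc hC (kap p)
  have h3 : (B.map kap).count (kap p) = 1 := by
    rw [hAB, List.map_append, List.map_cons, List.count_append, count_zero hA, hx,
      List.count_cons_self] at h2
    omega
  obtain ⟨M, x', B', rfl, hx', hM⟩ := split_one (W := B) (κ := kap p) (by omega)
  have hB' : (B'.map kap).count (kap p) = 0 := by
    rw [List.map_append, List.map_cons, List.count_append, count_zero hM, hx',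
      List.count_cons_self] at h3
    omega
  have hs : sg x' = -sg x := by
    have h5 := flow_D1 hn hI hm (kap p) C hC
    rw [hAB] at h5
    simp only [List.map_append, List.map_cons, List.sum_append, List.sum_cons,
      sum_zero (fk_zero hA), sum_zero (fk_zero hM), sum_zero (fk_zero (of_count_zero hB'))] at h5
    have e1 : fk (kap p) x = sg x := by simp [fk, hx]
    have e2 : fk (kap p) x' = sg x' := by simp [fk, hx']
    rw [e1, e2] at h5
    linarith
  have hmem : ∀ y ∈ C.1, y ∈ passes D := fun y hy => mem_passes.2 ⟨C, hC, hy⟩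
  have hxm : x ∈ C.1 := by rw [hAB]; simp
  have hxm' : x' ∈ C.1 := by rw [hAB]; simp
  have hxx : x ≠ x' := by
    intro h
    rw [h] at hs
    rcases sg_one x' with h6 | h6 <;> rw [h6] at hs <;> simp at hs
  have hcase : p = x ∨ p = x' := by
    by_contra hno
    rw [not_or] at hno
    have := three_le (hmem p hpC) (hmem x hxm) (hmem x' hxm') rfl hx hx' hno.1 hno.2 hxx
    have := hc (kap p)
    omega
  rcases hcase with rfl | rfl
  · exact ⟨x', hxm', hxx.symm, hx', hs⟩
  · exact ⟨x, hxm, hxx, hx, by rw [hs, neg_neg]⟩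

theorem old_mem {C : List Pass × ℕ} (hC : C ∈ D) {p q : Pass} (hpC : p ∈ C.1) (hq : q ∈ passes D)
    (h1 : q ≠ p) (h2 : kap q = kap p) : q ∈ C.1 ∧ sg q = -sg p := by
  obtain ⟨r, k1, k2, k3, k4⟩ := old_ex hn hI hm hc hC hpC
  have hmem : ∀ y ∈ C.1, y ∈ passes D := fun y hy => mem_passes.2 ⟨C, hC, hy⟩
  rcases only_two hc (hmem p hpC) (hmem r k1) hq k2 k3 h2 with h | h
  · exact absurd h h1
  · rw [h]; exact ⟨k1, k4⟩

include hW in
theorem ns_even {C : List Pass × ℕ} (hC : C ∈ D) {x x' y y' : Pass} (hx : x ∈ C.1) (hx' : x' ∈ C.1)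
    (hy : y ∈ C.1) (hy' : y' ∈ C.1) (h1 : x' ≠ x) (h2 : kap x' = kap x) (h3 : y' ≠ y)
    (h4 : kap y' = kap y) (h5 : kap y ≠ kap x) (he : Even ((Ts.flatMap tprs).count s(kap x, kap y))) :
    ns C.1 x x' y y' := by
  have hnd := circ_nodup hW hC
  have hmem : ∀ y ∈ C.1, y ∈ passes D := fun y hy => mem_passes.2 ⟨C, hC, hy⟩
  have key : ∀ a a' : Pass, ∀ A M B, C.1 = A ++ a :: (M ++ a' :: B) → kap a' = kap a →
      kap a = kap x → ns C.1 a a' y y' := by
    intro a a' A M B e e1 e2
    have hf := free_D hn hI hm hc hC e e1 (κ := kap y) (by rw [e2]; exact h5) (by rw [e2]; exact he)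
    have hMd : M.Nodup := by
      rw [e] at hnd
      exact (List.nodup_append.1 (List.nodup_cons.1 (List.nodup_append.1 hnd).2.1).2).1
    have hM : ∀ z ∈ M, z ∈ C.1 := fun z hz => by rw [e]; simp [hz]
    have c1 : y ∈ M → y' ∈ M := by
      intro hyM
      by_contra hyM'
      refine hf (count_one hMd hyM rfl fun z hz hk => ?_)
      rcases only_two hc (hmem y hy) (hmem y' hy') (hmem z (hM z hz)) h3 h4 hk with h | h
      · exact h
      · exact absurd (h ▸ hz) hyM'
    have c2 : y' ∈ M → y ∈ M := by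
      intro hyM'
      by_contra hyM
      refine hf (count_one hMd hyM' h4 fun z hz hk => ?_)
      rcases only_two hc (hmem y hy) (hmem y' hy') (hmem z (hM z hz)) h3 h4 hk with h | h
      · exact absurd (h ▸ hz) hyM
      · exact h
    rw [e] at hnd
    obtain ⟨-, -, i3⟩ := idx_split hnd
    have n1 : y ≠ a := fun h => h5 (by rw [h, e2])
    have n2 : y ≠ a' := fun h => h5 (by rw [h, e1, e2])
    have n3 : y' ≠ a := fun h => h5 (by rw [← h4, h, e2])
    have n4 : y' ≠ a' := fun h => h5 (by rw [← h4, h, e1, e2])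
    have m1 := i3 y (by rw [← e]; exact hy) n1 n2
    have m2 := i3 y' (by rw [← e]; exact hy') n3 n4
    unfold ns
    rw [e, ← m1, ← m2]
    exact ⟨c1, c2⟩
  obtain ⟨A, B, e⟩ := List.append_of_mem hx
  rw [e] at hx'
  rcases List.mem_append.1 hx' with h | h
  · obtain ⟨A', M, rfl⟩ := List.append_of_mem h
    have := key x' x A' M B (by rw [e]; simp) h2.symm h2
    exact ns_swap.1 this
  · rcases List.mem_cons.1 h with h | h
    · exact absurd h h1
    · obtain ⟨M, B', rfl⟩ := List.append_of_mem h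
      exact key x x' A M B' e h2 rfl

end

end Pool.Agent.L0h30.EN
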