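import Pool.Agent.L0h30.EN.Loc

/-! Local matchings: one double curve. -/

namespace Pool.Agent.L0h30.EN

open Pool.Agent.Y468.SR
open Pool.Agent.Y874.TP hiding S_REID S_REN S_THREE S_OUT S_CUT S_JUNC CStep CReid CM InvM InvC Inv3
open Pool.Agent.Y874.TP2
open Pool.Agent.Y874.TP2.T3
open Pool.Agent.R800.TP

theorem part_id (p : Pass) : part id p = p.mate := by
  unfold part
  exact if_pos rfl

theorem kap_even {p q : Pass} {k : ℕ} (hk : k % 2 = 0) (hp : colour p.crossing = k)
    (hq : colour q.crossing = k) : kap q = kap p := by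
  unfold kap lc
  rw [hp, hq]
  simp [hk]

theorem kap_same {p q : Pass} (h : colour q.crossing = colour p.crossing)
    (h' : q.isOver = p.isOver) : kap q = kap p := by
  unfold kap lc
  rw [h, h']

theorem over_of_kap {p q : Pass} (hk : colour p.crossing % 2 ≠ 0) (h : kap q = kap p) :
    q.isOver = p.isOver := by
  have h1 := h
  unfold kap lc at h1
  simp only [Prod.mk.injEq] at h1
  obtain ⟨h2, h3⟩ := h1
  have h4 : (colour p.crossing % 2 == 0) = false := by
    rw [beq_eq_false_iff_ne]; exact hk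
  rw [h2, h4, Bool.or_false, Bool.or_false] at h3
  exact h3

section
variable {D : Code} {Ts : List Tri} {m : ℕ → ℕ} (hn : (D.map Prod.snd).Nodup) (hI : InvB D Ts)
  (hW : WF (passes D))
  (hm : InvM (D ++ TC Ts) m) (hc : ∀ κ, ((passes D).map kap).count κ ≤ 2)
include hn hI hW hm hc

theorem mate_mem {C : List Pass × ℕ} (hC : C ∈ D) {p : Pass} (hp : p ∈ C.1)
    (hk : colour p.crossing % 2 = 0) : p.mate ∈ C.1 := by
  have hpD : p ∈ passes D := mem_passes.2 ⟨C, hC, hp⟩
  exact (old_mem hn hI hm hc hC hp (hW.1 p hpD) (mate_ne p) (kap_mate_even hk)).1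

theorem loc_even {k : ℕ} (hk : k % 2 = 0) : Loc D (fun p => colour p.crossing = k) id := by
  refine ⟨?_, ?_, ?_, ?_⟩
  · intro C hC p hp hPp
    rw [part_id]
    exact ⟨mate_mem hn hI hW hm hc hC hp (by rw [hPp]; exact hk), hPp⟩
  · intro p _ _
    rfl
  · intro C hC x hx y hy hPx hPy hyx hyx'
    rw [part_id] at hyx'
    have hxD : x ∈ passes D := mem_passes.2 ⟨C, hC, hx⟩
    have hyD : y ∈ passes D := mem_passes.2 ⟨C, hC, hy⟩
    rcases only_two hc hxD (hW.1 x hxD) hyD (mate_ne x) (kap_mate_even (by rw [hPx]; exact hk))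
      (kap_even hk hPx hPy) with h | h
    · exact absurd h hyx
    · exact absurd h hyx'
  · intro C hC x hx hPx t ht t' ht' hPt hPt' hold
    rw [part_id]
    exact hold x hx x.mate (mate_mem hn hI hW hm hc hC hx (by rw [hPx]; exact hk)) hPx (mate_ne x)
      (kap_mate_even (by rw [hPx]; exact hk))

theorem part_mt {C : List Pass × ℕ} (hC : C ∈ D) {p : Pass} (hp : p ∈ C.1)
    (hk : colour p.crossing % 2 ≠ 0) : part (mt D) p ∈ C.1 ∧ part (mt D) p ≠ p ∧
      kap (part (mt D) p) = kap p ∧ mt D (mt D p.crossing) = p.crossing := by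
  obtain ⟨q, h1, h2, h3, h4⟩ := old_ex hn hI hm hc hC hp
  have hpD : p ∈ passes D := mem_passes.2 ⟨C, hC, hp⟩
  have hqD : q ∈ passes D := mem_passes.2 ⟨C, hC, h1⟩
  obtain ⟨e1, e2, e3⟩ := odd_case hW hc hpD hqD h2 h3 hk
  have e4 := pos_of_sg hn hI hW hm hc e1 h4
  have e5 : part (mt D) p = q := by
    unfold part
    rw [e3, if_neg e2]
    obtain ⟨c, o, s⟩ := q
    simp only at e1 e4 ⊢
    rw [e1, e4]
  obtain ⟨-, -, e6⟩ := odd_case hW hc hqD hpD (Ne.symm h2) h3.symm (by rw [col_of_kap h3]; exact hk)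
  rw [e5]
  exact ⟨h1, h2, h3, by rw [e3, e6]⟩

theorem loc_odd {k : ℕ} (hk : k % 2 ≠ 0) : ∃ n, Loc D (fun p => colour p.crossing = k) n := by
  by_cases h : ∃ C ∈ D, ∃ x ∈ C.1, ∃ x' ∈ C.1, ∃ y ∈ C.1, ∃ y' ∈ C.1, x' ≠ x ∧ kap x' = kap x ∧
      y' ≠ y ∧ kap y' = kap y ∧ colour x.crossing = k ∧ colour y.crossing = k ∧ kap y ≠ kap x ∧
      ¬ns C.1 x x' y y'
  · obtain ⟨C, hC, x, hx, x', hx', y, hy, y', hy', h1, h2, h3, h4, h5, h6, h7, h8⟩ := h
    have hD : ∀ p ∈ C.1, p ∈ passes D := fun p hp => mem_passes.2 ⟨C, hC, hp⟩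
    have hxo : colour x.crossing % 2 ≠ 0 := by rw [h5]; exact hk
    have c5' : colour x'.crossing = k := by rw [col_of_kap h2, h5]
    have hxo' : colour x'.crossing % 2 ≠ 0 := by rw [c5']; exact hk
    have ho : x'.isOver = x.isOver := over_of_kap hxo h2
    obtain ⟨-, e2, -⟩ := odd_case hW hc (hD x hx) (hD x' hx') h1 h2 hxo
    -- the lower (or upper) ends
    have hoy : y.isOver = !x.isOver := by
      by_contra hno
      have : y.isOver = x.isOver := by
        cases h9 : y.isOver <;> cases h10 : x.isOver <;> simp_all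
      exact h7 (kap_same (by rw [h5, h6]) this)
    have kmx : kap x.mate = kap y := kap_same (by show colour x.crossing = _; rw [h5, h6])
      (by show (!x.isOver) = _; rw [hoy])
    have kmx' : kap x'.mate = kap y := kap_same (by show colour x'.crossing = _; rw [c5', h6])
      (by show (!x'.isOver) = _; rw [hoy, ho])
    have a1 := only_two hc (hD y hy) (hD y' hy') (hW.1 x (hD x hx)) h3 h4 kmx
    have a2 := only_two hc (hD y hy) (hD y' hy') (hW.1 x' (hD x' hx')) h3 h4 kmx'
    have hmm : x.mate ≠ x'.mate := by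
      intro h
      apply e2
      have := congrArg Pass.crossing h
      exact this.symm
    have hxm : x.mate ∈ C.1 ∧ x'.mate ∈ C.1 ∧ ¬ns C.1 x x' x.mate x'.mate := by
      rcases a1 with a1 | a1 <;> rcases a2 with a2 | a2
      · exact absurd (a1.trans a2.symm) hmm
      · rw [a1, a2]; exact ⟨hy, hy', h8⟩
      · rw [a1, a2]; exact ⟨hy', hy, fun h => h8 (ns_swap'.1 h)⟩
      · exact absurd (a1.trans a2.symm) hmm
    obtain ⟨b1, b2, b3⟩ := hxm
    refine ⟨id, loc4 hW hC (a := x) (b := x') (c := x.mate) (d := x'.mate) ?_ ?_ ?_ ?_ ?_ ?_ ?_ ?_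
      b3⟩
    · simp only [List.nodup_cons, List.mem_cons, List.not_mem_nil, or_false, not_or,
        List.nodup_nil, not_false_eq_true, and_true]
      refine ⟨⟨Ne.symm h1, (mate_ne x).symm, ?_⟩, ⟨?_, (mate_ne x').symm⟩, hmm⟩
      · intro h
        have := congrArg Pass.crossing h
        exact e2 this.symm
      · intro h
        have := congrArg Pass.crossing h
        exact e2 this
    · intro p hp
      simp only [List.mem_cons, List.not_mem_nil, or_false] at hp
      rcases hp with rfl | rfl | rfl | rfl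
      · exact hx
      · exact hx'
      · exact b1
      · exact b2
    · intro p hp
      constructor
      · intro hPp
        simp only [List.mem_cons, List.not_mem_nil, or_false]
        by_cases hpo : p.isOver = x.isOver
        · rcases only_two hc (hD x hx) (hD x' hx') hp h1 h2
            (kap_same (by rw [hPp, h5]) hpo) with h | h
          · exact Or.inl h
          · exact Or.inr (Or.inl h)
        · have hk2 : kap p = kap x.mate := kap_same (by show _ = colour x.crossing; rw [hPp, h5])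
            (by
              show p.isOver = !x.isOver
              cases h9 : p.isOver <;> cases h10 : x.isOver <;> simp_all)
          rcases only_two hc (hW.1 x (hD x hx)) (hW.1 x' (hD x' hx')) hp (Ne.symm hmm)
            (by rw [kmx, kmx']) hk2 with h | h
          · exact Or.inr (Or.inr (Or.inl h))
          · exact Or.inr (Or.inr (Or.inr h))
      · intro hpL
        simp only [List.mem_cons, List.not_mem_nil, or_false] at hpL
        rcases hpL with rfl | rfl | rfl | rfl
        · exact h5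
        · exact c5'
        · exact h5
        · exact c5'
    · exact ⟨part_id x, by rw [part_id, mate_mate']⟩
    · exact ⟨part_id x', by rw [part_id, mate_mate']⟩
    · intro p _; rfl
    · exact h2
    · rw [kmx, kmx']
  · refine ⟨mt D, ?_, ?_, ?_, ?_⟩
    · intro C hC p hp hPp
      obtain ⟨h1, h2, h3, h4⟩ := part_mt hn hI hW hm hc hC hp (by rw [hPp]; exact hk)
      exact ⟨h1, by rw [col_of_kap h3]; exact hPp⟩
    · intro p hp hPp
      obtain ⟨C, hC, hp⟩ := mem_passes.1 hp
      exact (part_mt hn hI hW hm hc hC hp (by rw [hPp]; exact hk)).2.2.2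
    · intro C hC x hx y hy hPx hPy hyx hyx'
      obtain ⟨h1, h2, h3, h4⟩ := part_mt hn hI hW hm hc hC hx (by rw [hPx]; exact hk)
      obtain ⟨k1, k2, k3, k4⟩ := part_mt hn hI hW hm hc hC hy (by rw [hPy]; exact hk)
      have hD : ∀ p ∈ C.1, p ∈ passes D := fun p hp => mem_passes.2 ⟨C, hC, hp⟩
      have hkk : kap y ≠ kap x := by
        intro hkk
        rcases only_two hc (hD x hx) (hD _ h1) (hD y hy) h2 h3 hkk with h' | h'
        · exact hyx h'
        · exact hyx' h'
      by_contra hns
      exact h ⟨C, hC, x, hx, _, h1, y, hy, _, k1, h2, h3, k2, k3, hPx, hPy, hkk, hns⟩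
    · intro C hC x hx hPx t ht t' ht' hPt hPt' hold
      obtain ⟨h1, h2, h3, h4⟩ := part_mt hn hI hW hm hc hC hx (by rw [hPx]; exact hk)
      exact hold x hx _ h1 hPx h2 h3

end

end Pool.Agent.L0h30.EN
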