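import Pool.Agent.L0h30.EN.Ind

/-! Chords: positions. -/

namespace Pool.Agent.L0h30.EN
set_option linter.unusedVariables false

/-- self-matching of crossing chords `a b`, `c d` -/
theorem p1 {a b c d : ℕ} (nd : [a, b, c, d].Nodup) (h : ¬(btw a b c ↔ btw a b d)) :
    (btw a c b ↔ btw a c d) ∧ (btw b d a ↔ btw b d c) := by
  simp only [List.nodup_cons, List.mem_cons, List.not_mem_nil, or_false, not_or,
    List.nodup_nil] at nd
  unfold btw at *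
  constructor <;> omega

theorem p2 {a b c d t t' : ℕ} (nd : [a, b, c, d].Nodup) (nt : t ∉ [a, b, c, d])
    (nt' : t' ∉ [a, b, c, d]) (h : ¬(btw a b c ↔ btw a b d))
    (e1 : btw a b t ↔ btw a b t') (e2 : btw c d t ↔ btw c d t') :
    (btw a c t ↔ btw a c t') ∧ (btw b d t ↔ btw b d t') := by
  simp only [List.nodup_cons, List.mem_cons, List.not_mem_nil, or_false, not_or,
    List.nodup_nil] at nd nt nt'
  unfold btw at *
  constructor <;> omega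

/-- chords `a c`, `b d` on the two sides of `e f` -/
theorem p3 {a b c d e f : ℕ} (nd : [a, b, c, d, e, f].Nodup)
    (h1 : btw e f a ↔ btw e f c) (h2 : btw e f b ↔ btw e f d) (h3 : ¬(btw e f a ↔ btw e f b)) :
    (btw a c b ↔ btw a c d) ∧ (btw a c e ↔ btw a c f) ∧ (btw b d a ↔ btw b d c) ∧
      (btw b d e ↔ btw b d f) := by
  simp only [List.nodup_cons, List.mem_cons, List.not_mem_nil, or_false, not_or,
    List.nodup_nil] at nd
  unfold btw at *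
  refine ⟨?_, ?_, ?_, ?_⟩ <;> omega

theorem q1 {a c e f t : ℕ} (nd : [a, c, e, f, t].Nodup) (h1 : btw e f a ↔ btw e f c)
    (h : ¬(btw e f t ↔ btw e f a)) : btw a c t ↔ btw a c e := by
  simp only [List.nodup_cons, List.mem_cons, List.not_mem_nil, or_false, not_or,
    List.nodup_nil] at nd
  unfold btw at *
  omega

theorem q2 {a b e f t t' : ℕ} (nd : [a, b, e, f].Nodup) (nt : t ∉ [a, b, e, f])
    (nt' : t' ∉ [a, b, e, f]) (h : ¬(btw e f a ↔ btw e f b))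
    (ht : btw e f t ↔ btw e f a) (ht' : btw e f t' ↔ btw e f a)
    (k1 : btw a b t ↔ btw a b t') : btw a e t ↔ btw a e t' := by
  simp only [List.nodup_cons, List.mem_cons, List.not_mem_nil, or_false, not_or,
    List.nodup_nil] at nd nt nt'
  unfold btw at *
  omega

theorem q3 {a c e t : ℕ} (nt : t ∉ [a, c, e]) : btw a c t ↔ ¬(btw a e t ↔ btw c e t) := by
  simp only [List.mem_cons, List.not_mem_nil, or_false, not_or] at nt
  unfold btw at *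
  omega

theorem p4_nd {a b c d e f t t' : ℕ} (nd : [a, b, c, d, e, f].Nodup)
    (nt : t ∉ [a, b, c, d, e, f]) (nt' : t' ∉ [a, b, c, d, e, f]) :
    ([a, b, e, f].Nodup ∧ t ∉ [a, b, e, f] ∧ t' ∉ [a, b, e, f]) ∧
    ([c, d, e, f].Nodup ∧ t ∉ [c, d, e, f] ∧ t' ∉ [c, d, e, f]) ∧
    (t ∉ [a, c, e] ∧ t' ∉ [a, c, e]) ∧ [a, c, e, f, t].Nodup ∧ [a, c, e, f, t'].Nodup := by
  simp only [List.nodup_cons, List.mem_cons, List.not_mem_nil, or_false, not_or,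
    List.nodup_nil, not_false_eq_true, and_true] at nd nt nt' ⊢
  obtain ⟨⟨n1, n2, n3, n4, n5⟩, ⟨n6, n7, n8, n9⟩, ⟨n10, n11, n12⟩, ⟨n13, n14⟩, n15⟩ := nd
  obtain ⟨t1, t2, t3, t4, t5, t6⟩ := nt
  obtain ⟨s1, s2, s3, s4, s5, s6⟩ := nt'
  refine ⟨⟨⟨⟨n1, n4, n5⟩, ⟨n8, n9⟩, n15⟩, ⟨t1, t2, t5, t6⟩, ⟨s1, s2, s5, s6⟩⟩,
    ⟨⟨⟨n10, n11, n12⟩, ⟨n13, n14⟩, n15⟩, ⟨t3, t4, t5, t6⟩, ⟨s3, s4, s5, s6⟩⟩,
    ⟨⟨t1, t3, t5⟩, ⟨s1, s3, s5⟩⟩, ⟨⟨n2, n4, n5, fun h => t1 h.symm⟩,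
      ⟨n11, n12, fun h => t3 h.symm⟩, ⟨n15, fun h => t5 h.symm⟩, fun h => t6 h.symm⟩,
      ⟨n2, n4, n5, fun h => s1 h.symm⟩, ⟨n11, n12, fun h => s3 h.symm⟩,
      ⟨n15, fun h => s5 h.symm⟩, fun h => s6 h.symm⟩

theorem p4 {a b c d e f t t' : ℕ} (nd : [a, b, c, d, e, f].Nodup)
    (nt : t ∉ [a, b, c, d, e, f]) (nt' : t' ∉ [a, b, c, d, e, f])
    (h1 : btw e f a ↔ btw e f c) (h2 : btw e f b ↔ btw e f d) (h3 : ¬(btw e f a ↔ btw e f b))
    (k1 : btw a b t ↔ btw a b t') (k2 : btw c d t ↔ btw c d t') (k3 : btw e f t ↔ btw e f t') :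
    (btw a c t ↔ btw a c t') := by
  obtain ⟨⟨x1, x2, x3⟩, ⟨y1, y2, y3⟩, ⟨z1, z2⟩, w1, w2⟩ := p4_nd nd nt nt'
  by_cases ht : btw e f t ↔ btw e f a
  · have ht' : btw e f t' ↔ btw e f a := k3.symm.trans ht
    have e1 := q2 (a := a) (b := b) (e := e) (f := f) (t := t) (t' := t') x1 x2 x3 h3 ht ht' k1
    have e2 := q2 (a := c) (b := d) (e := e) (f := f) (t := t) (t' := t') y1 y2 y3
      (by rw [← h1, ← h2]; exact h3) (ht.trans h1) (ht'.trans h1) k2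
    rw [q3 (a := a) (c := c) (e := e) (t := t) z1, q3 (a := a) (c := c) (e := e) (t := t') z2,
      e1, e2]
  · have ht' : ¬(btw e f t' ↔ btw e f a) := fun h => ht (k3.trans h)
    have e1 := q1 (a := a) (c := c) (e := e) (f := f) (t := t) w1 h1 ht
    have e2 := q1 (a := a) (c := c) (e := e) (f := f) (t := t') w2 h1 ht'
    rw [e1, e2]

/-- both -/
theorem p4' {a b c d e f t t' : ℕ} (nd : [a, b, c, d, e, f].Nodup)
    (nt : t ∉ [a, b, c, d, e, f]) (nt' : t' ∉ [a, b, c, d, e, f])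
    (h1 : btw e f a ↔ btw e f c) (h2 : btw e f b ↔ btw e f d) (h3 : ¬(btw e f a ↔ btw e f b))
    (k1 : btw a b t ↔ btw a b t') (k2 : btw c d t ↔ btw c d t') (k3 : btw e f t ↔ btw e f t') :
    (btw a c t ↔ btw a c t') ∧ (btw b d t ↔ btw b d t') := by
  refine ⟨p4 nd nt nt' h1 h2 h3 k1 k2 k3, ?_⟩
  refine p4 (a := b) (b := a) (c := d) (d := c) (e := e) (f := f) ?_ ?_ ?_ h2 h1
    (fun h => h3 h.symm) ?_ ?_ k3
  · simp only [List.nodup_cons, List.mem_cons, List.not_mem_nil, or_false, not_or,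
      List.nodup_nil, not_false_eq_true, and_true] at nd ⊢
    obtain ⟨⟨n1, n2, n3, n4, n5⟩, ⟨n6, n7, n8, n9⟩, ⟨n10, n11, n12⟩, ⟨n13, n14⟩, n15⟩ := nd
    exact ⟨⟨fun h => n1 h.symm, n7, n6, n8, n9⟩, ⟨n3, n2, n4, n5⟩, ⟨fun h => n10 h.symm, n13, n14⟩,
      ⟨n11, n12⟩, n15⟩
  · simp only [List.mem_cons, List.not_mem_nil, or_false, not_or] at nt ⊢
    exact ⟨nt.2.1, nt.1, nt.2.2.2.1, nt.2.2.1, nt.2.2.2.2⟩
  · simp only [List.mem_cons, List.not_mem_nil, or_false, not_or] at nt' ⊢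
    exact ⟨nt'.2.1, nt'.1, nt'.2.2.2.1, nt'.2.2.1, nt'.2.2.2.2⟩
  · exact btw_swap.trans (k1.trans btw_swap)
  · exact btw_swap.trans (k2.trans btw_swap)

end Pool.Agent.L0h30.EN
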