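import Pool.Agent.L0h30.EN.Lk

/-! Local matchings: three double curves with branch points. -/

namespace Pool.Agent.L0h30.EN

open Pool.Agent.Y468.SR
open Pool.Agent.Y874.TP hiding S_REID S_REN S_THREE S_OUT S_CUT S_JUNC CStep CReid CM InvM InvC Inv3
open Pool.Agent.Y874.TP2
open Pool.Agent.Y874.TP2.T3
open Pool.Agent.R800.TP

theorem bool_ee {b1 b2 b3 b4 : Prop} [Decidable b1] [Decidable b2] [Decidable b3] [Decidable b4]
    {s : ℤ} (hs : s = 1 ∨ s = -1)
    (h : (if b1 then s else 0) + ((if b2 then -s else 0) + ((if b3 then -s else 0) +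
      ((if b4 then - -s else 0) + 0))) = 0) (hor : ¬(b1 ↔ b3)) :
    (b1 ↔ b2) ∧ (b3 ↔ b4) := by
  rcases hs with rfl | rfl <;> split_ifs at h <;> simp_all

theorem bool_tr {b1 b2 b3 b4 : Prop} [Decidable b1] [Decidable b2] [Decidable b3] [Decidable b4]
    {s t : ℤ} (hs : s = 1 ∨ s = -1) (ht : t = 1 ∨ t = -1)
    (h : (if b1 then s else 0) + ((if b2 then -s else 0) + ((if b3 then t else 0) +
      ((if b4 then -t else 0) + 0))) = 0) (hor : ¬(b1 ↔ b2)) : ¬(b3 ↔ b4) := by
  rcases hs with rfl | rfl <;> rcases ht with rfl | rfl <;> split_ifs at h <;> simp_all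

theorem bool_two {b1 b2 : Prop} [Decidable b1] [Decidable b2]
    {s : ℤ} (hs : s = 1 ∨ s = -1)
    (h : (if b1 then s else 0) + ((if b2 then -s else 0) + 0) = 0) : (b1 ↔ b2) := by
  rcases hs with rfl | rfl <;> split_ifs at h <;> simp_all

theorem sg_ne {p q : Pass} (h1 : p.isOver = true) (h2 : q.isOver = true)
    (h : p.isPos ≠ q.isPos) : sg q = -sg p := by
  unfold sg
  rw [h1, h2]
  cases h3 : p.isPos <;> cases h4 : q.isPos <;> simp_all

variable {D : Code} {cmp : ℕ → ℕ} {g : ℕ}
variable {Ts : List Tri} {m : ℕ → ℕ} (hn : (D.map Prod.snd).Nodup) (hI : InvB D Ts)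
  (hW : WF (passes D))
  (hm : InvM (D ++ TC Ts) m) (hc : ∀ κ, ((passes D).map kap).count κ ≤ 2)
  (hg : ∀ T ∈ Ts, cmp (colour T.b₁) = cmp (colour T.a₁) ∧ cmp (colour T.c₁) = cmp (colour T.a₁))

theorem nd6 {a b c : Pass} (h1 : a.crossing ≠ b.crossing) (h2 : a.crossing ≠ c.crossing)
    (h3 : b.crossing ≠ c.crossing) : [a, a.mate, b, b.mate, c, c.mate].Nodup := by
  have key : ∀ p q : Pass, p.crossing ≠ q.crossing → p ≠ q ∧ p ≠ q.mate ∧ p.mate ≠ q ∧
      p.mate ≠ q.mate := by
    intro p q h
    refine ⟨fun e => h (by rw [e]), fun e => h ?_, fun e => h ?_, fun e => h ?_⟩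
    · have := congrArg Pass.crossing e; exact this
    · have := congrArg Pass.crossing e; exact this
    · have := congrArg Pass.crossing e; exact this
  obtain ⟨k1, k2, k3, k4⟩ := key a b h1
  obtain ⟨k5, k6, k7, k8⟩ := key a c h2
  obtain ⟨k9, k10, k11, k12⟩ := key b c h3
  simp only [List.nodup_cons, List.mem_cons, List.not_mem_nil, or_false, not_or,
    List.nodup_nil, not_false_eq_true, and_true]
  exact ⟨⟨(mate_ne a).symm, k1, k2, k5, k6⟩, ⟨k3, k4, k7, k8⟩, ⟨(mate_ne b).symm, k9, k10⟩,
    ⟨k11, k12⟩, (mate_ne c).symm⟩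

/-- interleaved curves with branch points -/
def Il (C : List Pass × ℕ) (a b : Pass) : Prop :=
  a ∈ C.1 ∧ a.mate ∈ C.1 ∧ b ∈ C.1 ∧ b.mate ∈ C.1 ∧ ¬ns C.1 a a.mate b b.mate

theorem Il.symm {C : List Pass × ℕ} {a b : Pass} (h : Il C a b) (hab : a.crossing ≠ b.crossing) :
    Il C b a := by
  obtain ⟨h1, h2, h3, h4, h5⟩ := h
  refine ⟨h3, h4, h1, h2, fun h6 => h5 ?_⟩
  refine ns_symm h3 h4 h1 h2 ?_ ?_ ?_ ?_ h6
  · intro e; exact hab (by rw [e])
  · intro e
    have := congrArg Pass.crossing e; exact hab this.symm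
  · intro e
    have := congrArg Pass.crossing e; exact hab this.symm
  · intro e
    have := congrArg Pass.crossing e; exact hab this.symm

include hn hI hW hm hc hg

theorem loc_tri {C : List Pass × ℕ} (hC : C ∈ D) {a b c : Pass} (ha : a ∈ passes D)
    (hb : b ∈ passes D) (_hcD : c ∈ passes D) (oa : a.isOver = true) (ob : b.isOver = true)
    (h1 : a.crossing ≠ b.crossing) (h2 : a.crossing ≠ c.crossing)
    (h3 : b.crossing ≠ c.crossing) (ka : colour a.crossing % 2 = 0)
    (kb : colour b.crossing % 2 = 0) (kc : colour c.crossing % 2 = 0)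
    (ga : cmp (colour a.crossing) = g) (gb : cmp (colour b.crossing) = g)
    (gc : cmp (colour c.crossing) = g)
    (hall : ∀ p ∈ passes D, cmp (colour p.crossing) = g →
      p ∈ [a, a.mate, b, b.mate, c, c.mate])
    (hs : a.isPos ≠ b.isPos) (hil : Il C c a) :
    ∃ n, Loc D (fun p => cmp (colour p.crossing) = g) n := by
  obtain ⟨c1, c2, a1, a2, hns⟩ := hil
  have nd := nd6 h1 h2 h3
  have nd' := nd
  simp only [List.nodup_cons, List.mem_cons, List.not_mem_nil, or_false, not_or, List.nodup_nil,
    not_false_eq_true, and_true] at nd'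
  obtain ⟨⟨n1, n2, n3, n4, n5⟩, ⟨n6, n7, n8, n9⟩, ⟨n10, n11, n12⟩, ⟨n13, n14⟩, n15⟩ := nd'
  have hidx := index hn hI hW hm hc hg hC c1 c2 (mate_ne c) (kap_mate_even kc) kc gc
    (L := [a, b, a.mate, b.mate])
    (by
      simp only [List.nodup_cons, List.mem_cons, List.not_mem_nil, or_false, not_or,
        List.nodup_nil, not_false_eq_true, and_true]
      exact ⟨⟨n2, n1, n3⟩, ⟨fun h => n6 h.symm, n10⟩, n7⟩)
    (by
      intro h
      simp only [List.mem_cons, List.not_mem_nil, or_false] at h
      rcases h with h | h | h | h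
      · exact n4 h.symm
      · exact n11 h.symm
      · exact n8 h.symm
      · exact n13 h.symm)
    (by
      intro h
      simp only [List.mem_cons, List.not_mem_nil, or_false] at h
      rcases h with h | h | h | h
      · exact n5 h.symm
      · exact n12 h.symm
      · exact n9 h.symm
      · exact n14 h.symm)
    (by
      intro p hp
      simp only [List.mem_cons, List.not_mem_nil, or_false] at hp
      rcases hp with rfl | rfl | rfl | rfl
      · exact ga
      · exact gb
      · exact ga
      · exact gb)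
    (by
      intro p hp hpg
      have := hall p hp hpg
      simp only [List.mem_cons, List.not_mem_nil, or_false] at this ⊢
      rcases this with h | h | h | h | h | h <;> simp [h])
  simp only [List.map_cons, List.map_nil, List.sum_cons, List.sum_nil, sg_mate,
    sg_ne oa ob hs] at hidx
  obtain ⟨e1, e2⟩ := bool_ee (sg_one a) hidx hns
  have hbm : b ∈ C.1 ∧ b.mate ∈ C.1 := by
    by_cases b4 : btw (C.1.idxOf c) (C.1.idxOf c.mate) (C.1.idxOf a)
    · have m3 := btw_mem c1 c2 (e1.1 b4)
      exact ⟨m3, mate_mem hn hI hW hm hc hC m3 kb⟩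
    · have b5 : btw (C.1.idxOf c) (C.1.idxOf c.mate) (C.1.idxOf a.mate) := by
        by_contra b5
        exact hns ⟨fun h => absurd h b4, fun h => absurd h b5⟩
      have m3 := btw_mem c1 c2 (e2.1 b5)
      have m4 := mate_mem hn hI hW hm hc hC m3 kb
      rw [mate_mate'] at m4
      exact ⟨m4, m3⟩
  obtain ⟨b1, b2⟩ := hbm
  set n : ℕ → ℕ := fun k => if k = a.crossing then b.crossing else if k = b.crossing then
    a.crossing else k with hnn
  have na : n a.crossing = b.crossing := by simp [hnn]
  have nb : n b.crossing = a.crossing := by simp [hnn, h1.symm]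
  have ncc : n c.crossing = c.crossing := by simp [hnn, h2.symm, h3.symm]
  have hpos : b.isPos = !a.isPos := by
    cases h4 : a.isPos <;> cases h5 : b.isPos <;> simp_all
  have eb : b = ⟨b.crossing, true, !a.isPos⟩ := by
    rw [← hpos, ← ob]
  have ea : a = ⟨a.crossing, true, !b.isPos⟩ := by
    rw [hpos, Bool.not_not, ← oa]
  have pa : part n a = b := by
    unfold part
    rw [na, if_neg h1.symm, oa]
    exact eb.symm
  have pb : part n b = a := by
    unfold part
    rw [nb, if_neg h1, ob]
    exact ea.symm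
  have pa' : part n a.mate = b.mate := by
    unfold part
    have : a.mate.crossing = a.crossing := rfl
    rw [this, na, if_neg h1.symm]
    show (⟨b.crossing, !a.isOver, !a.isPos⟩ : Pass) = ⟨b.crossing, !b.isOver, b.isPos⟩
    rw [oa, ob, hpos]
  have pb' : part n b.mate = a.mate := by
    unfold part
    have : b.mate.crossing = b.crossing := rfl
    rw [this, nb, if_neg h1]
    show (⟨a.crossing, !b.isOver, !b.isPos⟩ : Pass) = ⟨a.crossing, !a.isOver, a.isPos⟩
    rw [oa, ob, hpos, Bool.not_not]
  have pc : part n c = c.mate := by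
    unfold part
    exact if_pos ncc
  have pc' : part n c.mate = c := by
    unfold part
    have : n c.mate.crossing = c.mate.crossing := ncc
    rw [if_pos this, mate_mate']
  refine ⟨n, loc6 hW hC (a := a) (b := a.mate) (c := b) (d := b.mate) (e := c) (f := c.mate) nd ?_
    ?_ ⟨pa, pb⟩ ⟨pa', pb'⟩ ⟨pc, pc'⟩ ?_ (kap_mate_even ka) (kap_mate_even kb) (kap_mate_even kc)
    e1 e2 hns⟩
  · intro p hp
    simp only [List.mem_cons, List.not_mem_nil, or_false] at hp
    rcases hp with rfl | rfl | rfl | rfl | rfl | rfl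
    · exact a1
    · exact a2
    · exact b1
    · exact b2
    · exact c1
    · exact c2
  · intro p hp
    refine ⟨hall p hp, fun h => ?_⟩
    simp only [List.mem_cons, List.not_mem_nil, or_false] at h
    rcases h with rfl | rfl | rfl | rfl | rfl | rfl
    · exact ga
    · exact ga
    · exact gb
    · exact gb
    · exact gc
    · exact gc
  · intro p hp
    simp only [List.mem_cons, List.not_mem_nil, or_false] at hp
    have qa : n (n a.crossing) = a.crossing := by rw [na, nb]
    have qb : n (n b.crossing) = b.crossing := by rw [nb, na]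
    have qc : n (n c.crossing) = c.crossing := by rw [ncc, ncc]
    rcases hp with rfl | rfl | rfl | rfl | rfl | rfl
    · exact qa
    · exact qa
    · exact qb
    · exact qb
    · exact qc
    · exact qc

/-- interleaving is passed on by the index -/
theorem il_trans {C : List Pass × ℕ} (hC : C ∈ D) {u v w : Pass}
    (h1 : u.crossing ≠ v.crossing) (h2 : u.crossing ≠ w.crossing)
    (h3 : v.crossing ≠ w.crossing) (ku : colour u.crossing % 2 = 0)
    (kw : colour w.crossing % 2 = 0)
    (gu : cmp (colour u.crossing) = g) (gv : cmp (colour v.crossing) = g)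
    (gw : cmp (colour w.crossing) = g)
    (hall : ∀ p ∈ passes D, cmp (colour p.crossing) = g →
      p ∈ [u, u.mate, v, v.mate, w, w.mate]) (hil : Il C u v) : Il C u w := by
  obtain ⟨u1, u2, v1, v2, hns⟩ := hil
  have nd' := nd6 h1 h2 h3
  simp only [List.nodup_cons, List.mem_cons, List.not_mem_nil, or_false, not_or, List.nodup_nil,
    not_false_eq_true, and_true] at nd'
  obtain ⟨⟨n1, n2, n3, n4, n5⟩, ⟨n6, n7, n8, n9⟩, ⟨n10, n11, n12⟩, ⟨n13, n14⟩, n15⟩ := nd'
  have hidx := index hn hI hW hm hc hg hC u1 u2 (mate_ne u) (kap_mate_even ku) ku gu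
    (L := [v, v.mate, w, w.mate])
    (by
      simp only [List.nodup_cons, List.mem_cons, List.not_mem_nil, or_false, not_or,
        List.nodup_nil, not_false_eq_true, and_true]
      exact ⟨⟨n10, n11, n12⟩, ⟨n13, n14⟩, n15⟩)
    (by
      intro h
      simp only [List.mem_cons, List.not_mem_nil, or_false] at h
      rcases h with h | h | h | h
      · exact n2 h
      · exact n3 h
      · exact n4 h
      · exact n5 h)
    (by
      intro h
      simp only [List.mem_cons, List.not_mem_nil, or_false] at h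
      rcases h with h | h | h | h
      · exact n6 h
      · exact n7 h
      · exact n8 h
      · exact n9 h)
    (by
      intro p hp
      simp only [List.mem_cons, List.not_mem_nil, or_false] at hp
      rcases hp with rfl | rfl | rfl | rfl
      · exact gv
      · exact gv
      · exact gw
      · exact gw)
    (by
      intro p hp hpg
      have := hall p hp hpg
      simp only [List.mem_cons, List.not_mem_nil, or_false] at this ⊢
      rcases this with h | h | h | h | h | h <;> simp [h])
  simp only [List.map_cons, List.map_nil, List.sum_cons, List.sum_nil, sg_mate] at hidx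
  have e1 := bool_tr (sg_one v) (sg_one w) hidx hns
  have hbm : w ∈ C.1 ∧ w.mate ∈ C.1 := by
    by_cases b4 : btw (C.1.idxOf u) (C.1.idxOf u.mate) (C.1.idxOf w)
    · have m3 := btw_mem u1 u2 b4
      exact ⟨m3, mate_mem hn hI hW hm hc hC m3 kw⟩
    · have b5 : btw (C.1.idxOf u) (C.1.idxOf u.mate) (C.1.idxOf w.mate) := by
        by_contra b5
        exact e1 ⟨fun h => absurd h b4, fun h => absurd h b5⟩
      have m3 := btw_mem u1 u2 b5
      have m4 := mate_mem hn hI hW hm hc hC m3 kw
      rw [mate_mate'] at m4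
      exact ⟨m4, m3⟩
  exact ⟨u1, u2, hbm.1, hbm.2, e1⟩

end Pool.Agent.L0h30.EN
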